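import Pool.Agent.K6.H15.TP.Ct
import Pool.Agent.K6.H57.MX.Bf

/-! # Thick points: from a uniform point to the zeros -/

set_option autoImplicit false

open MeasureTheory Set Filter Topology
open scoped ContDiff NNReal

namespace Pool.Agent.K6.H15.TP

open Pool.Agent.K6.H57.ML Pool.Agent.K6.H57.MX
open SG (ord NZ)
open Pool.Agent.R320.CL (SS dl)

noncomputable section

open Classical in
/-- the number of runs with large discrepancy -/
def cS (R n : ℕ) (σ y : ℝ) : ℕ := ((Finset.Icc 1 R).filter fun r : ℕ => y ≤ σ * (SS r n - r)).card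

lemma cS_mono (R n : ℕ) (σ : ℝ) {x y : ℝ} (h : x ≤ y) : cS R n σ y ≤ cS R n σ x := by
  classical
  unfold cS
  apply Finset.card_le_card
  intro u hu
  rw [Finset.mem_filter] at hu ⊢
  exact ⟨hu.1, h.trans hu.2⟩

lemma cS_le (R n : ℕ) (σ y : ℝ) : cS R n σ y ≤ R := by
  classical
  unfold cS
  refine (Finset.card_filter_le _ _).trans ?_
  rw [Nat.card_Icc, Nat.add_sub_cancel]

lemma cD_mono (m : ℕ) (σ T t : ℝ) {x y : ℝ} (h : x ≤ y) : cD m σ y T t ≤ cD m σ x T t := by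
  classical
  unfold cD
  apply Finset.card_le_card
  intro u hu
  rw [Finset.mem_filter] at hu ⊢
  exact ⟨hu.1, h.trans hu.2⟩

/-- the good zeros -/
def Gq (ε : ℝ) (R n : ℕ) : Prop :=
  ∀ σ : ℝ, σ ^ 2 = 1 → ∀ a : ℝ, 0 ≤ a → a ≤ 1 - ε →
    Real.exp ((1 - a ^ 2 - ε) * Real.log R) ≤ cS R n σ (a / Real.pi * Real.log R) ∧
    (cS R n σ (a / Real.pi * Real.log R) : ℝ) ≤ Real.exp ((1 - a ^ 2 + ε) * Real.log R)

/-- upper bounds for long runs -/
lemma tu1 {T t y z : ℝ} (hL : 0 < Real.log T) {n R : ℕ} (hn : 1 ≤ n) (h1 : t < ord n)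
    (h2 : ord n < t + 2 * Real.pi / Real.log T) (hz : ((NZ (t + 2 * Real.pi / Real.log T) : ℝ) - NZ t) ≤ z)
    (hy : 1 ≤ y) (hyR : y ≤ R) (hS : ∀ r ∈ Finset.Icc 1 R, |SS r n - pr T r n| ≤ 1) :
    cS R n 1 y ≤ cD (2 * R) (-1) (y - z - 2) T t := by
  classical
  have hpi := Real.pi_pos
  obtain ⟨k, hk⟩ : ∃ k : ℕ, k = ⌊y⌋₊ := ⟨_, rfl⟩
  have hk1 : (k : ℝ) ≤ y := by rw [hk]; exact Nat.floor_le (by linarith)
  have hk2 : y < k + 1 := by rw [hk]; exact Nat.lt_floor_add_one y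
  have hk0 : 1 ≤ k := by rw [hk]; exact Nat.le_floor (by exact_mod_cast hy)
  have hkR : k ≤ R := by
    have : (k : ℝ) ≤ R := hk1.trans hyR
    exact_mod_cast this
  have hn1 : n ≤ NZ (t + 2 * Real.pi / Real.log T) := (SG.ord_le_iff hn _).1 h2.le
  have hn1R : (n : ℝ) ≤ NZ (t + 2 * Real.pi / Real.log T) := by exact_mod_cast hn1
  unfold cS cD
  refine Finset.card_le_card_of_injOn (fun r => r + (k - 1)) ?_ (fun r _ r' _ h => by
    have : r + (k - 1) = r' + (k - 1) := h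
    omega)
  intro r hr
  rw [Finset.mem_coe, Finset.mem_filter, Finset.mem_Icc, one_mul] at hr
  obtain ⟨⟨hr1, hr2⟩, hr3⟩ := hr
  have hr4 := (abs_le.1 (hS r (Finset.mem_Icc.2 ⟨hr1, hr2⟩))).2
  rw [Finset.mem_coe, Finset.mem_filter, Finset.mem_Icc]
  beta_reduce
  refine ⟨⟨by omega, by omega⟩, ?_⟩
  have hvc : ((r + (k - 1) : ℕ) : ℝ) = r + k - 1 := by
    rw [Nat.cast_add, Nat.cast_sub hk0]
    push_cast
    ring
  obtain ⟨v, hv⟩ : ∃ v : ℕ, v = r + (k - 1) := ⟨_, rfl⟩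
  rw [← hv] at hvc ⊢
  have hvp : (v : ℝ) ≤ pr T r n := by
    rw [hvc]
    linarith
  have h4 : NZ (t + 2 * Real.pi * (v : ℝ) / Real.log T) < n + r := by
    by_contra hc
    push Not at hc
    rw [← SG.ord_le_iff (by omega), ord_pr hL] at hc
    have : 2 * Real.pi * (v : ℝ) / Real.log T ≤ 2 * Real.pi * pr T r n / Real.log T := by gcongr
    linarith
  have h5 : (NZ (t + 2 * Real.pi * (v : ℝ) / Real.log T) : ℝ) + 1 ≤ n + r := by exact_mod_cast h4
  unfold DD
  rw [hvc] at h5 ⊢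
  linarith

/-- upper bounds for short runs -/
lemma tu2 {T t y z : ℝ} (hL : 0 < Real.log T) {n R : ℕ} (hn : 1 ≤ n) (h1 : t < ord n)
    (h2 : ord n < t + 2 * Real.pi / Real.log T) (hz : 0 ≤ z)
    (hy : 1 ≤ y) (hR : 2 ≤ R) (hS : ∀ r ∈ Finset.Icc 1 R, |SS r n - pr T r n| ≤ 1) :
    cS R n (-1) y ≤ cD (2 * R) 1 (y - z - 2) T t := by
  classical
  have hpi := Real.pi_pos
  obtain ⟨k, hk⟩ : ∃ k : ℕ, k = ⌊y⌋₊ := ⟨_, rfl⟩
  have hk1 : (k : ℝ) ≤ y := by rw [hk]; exact Nat.floor_le (by linarith)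
  have hk2 : y < k + 1 := by rw [hk]; exact Nat.lt_floor_add_one y
  have hk0 : 1 ≤ k := by rw [hk]; exact Nat.le_floor (by exact_mod_cast hy)
  have hn2 : NZ t < n := by
    by_contra hcon
    push Not at hcon
    have := (SG.ord_le_iff hn _).2 hcon
    linarith
  have hn2R : (NZ t : ℝ) + 1 ≤ n := by exact_mod_cast hn2
  have key : ∀ r : ℕ, 1 ≤ r → r ≤ R → y ≤ -1 * (SS r n - r) → pr T r n ≤ r - y + 1 ∧ k ≤ r + 1 := by
    intro r hr1 hr2 hr3
    have hr4 := (abs_le.1 (hS r (Finset.mem_Icc.2 ⟨hr1, hr2⟩))).1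
    have h3 : pr T r n ≤ r - y + 1 := by linarith
    refine ⟨h3, ?_⟩
    have h4 := pr_nonneg hL (r := r) hn
    have : (k : ℝ) ≤ r + 1 := by linarith
    exact_mod_cast this
  unfold cS cD
  refine Finset.card_le_card_of_injOn (fun r => r + 2 - k) ?_ ?_
  · intro r hr
    rw [Finset.mem_coe, Finset.mem_filter, Finset.mem_Icc] at hr
    obtain ⟨⟨hr1, hr2⟩, hr3⟩ := hr
    obtain ⟨hr5, hr6⟩ := key r hr1 hr2 hr3
    rw [Finset.mem_coe, Finset.mem_filter, Finset.mem_Icc]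
    beta_reduce
    refine ⟨⟨by omega, by omega⟩, ?_⟩
    have hvc : ((r + 2 - k : ℕ) : ℝ) = r + 2 - k := by
      rw [Nat.cast_sub (by omega)]
      push_cast
      ring
    obtain ⟨v, hv⟩ : ∃ v : ℕ, v = r + 2 - k := ⟨_, rfl⟩
    rw [← hv] at hvc ⊢
    have h4 : n + r ≤ NZ (t + 2 * Real.pi * (v : ℝ) / Real.log T) := by
      rw [← SG.ord_le_iff (by omega), ord_pr hL]
      have e : t + 2 * Real.pi * (v : ℝ) / Real.log T =
          (t + 2 * Real.pi / Real.log T) + 2 * Real.pi * (v - 1) / Real.log T := by ring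
      rw [e]
      have h6 : pr T r n ≤ v - 1 := by
        rw [hvc]
        linarith
      have : 2 * Real.pi * pr T r n / Real.log T ≤ 2 * Real.pi * (v - 1) / Real.log T := by gcongr
      linarith
    have h5 : (n : ℝ) + r ≤ NZ (t + 2 * Real.pi * (v : ℝ) / Real.log T) := by exact_mod_cast h4
    unfold DD
    rw [hvc] at h5 ⊢
    linarith
  · intro r hr r' hr' h
    rw [Finset.mem_coe, Finset.mem_filter, Finset.mem_Icc] at hr hr'
    have h3 := (key r hr.1.1 hr.1.2 hr.2).2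
    have h4 := (key r' hr'.1.1 hr'.1.2 hr'.2).2
    have : r + 2 - k = r' + 2 - k := h
    omega

/-- the number of `v` with the same value of the counting function -/
lemma fib {T t x : ℝ} (hL : 0 < Real.log T) (m q : ℕ) (hx0 : 0 ≤ x) (P : ℕ → Prop) [DecidablePred P]
    (hx : ∀ v ∈ Finset.Icc 1 m, |DD T t v| ≤ x)
    (hP : ∀ v ∈ Finset.Icc 1 m, P v → NZ (t + 2 * Real.pi * (v : ℝ) / Real.log T) = q) :
    (((Finset.Icc 1 m).filter P).card : ℝ) ≤ 3 * (x + 1) := by
  have hpi := Real.pi_pos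
  by_cases hne : ((Finset.Icc 1 m).filter P).Nonempty
  · obtain ⟨v0, hv0⟩ := hne
    rw [Finset.mem_filter] at hv0
    have hq : NZ t ≤ q := by
      rw [← hP v0 hv0.1 hv0.2]
      apply SG.NZ_mono
      have : 0 ≤ 2 * Real.pi * (v0 : ℝ) / Real.log T := by positivity
      linarith
    refine le_trans ?_ (cnt m (q - NZ t) (x := x + 1) (by linarith))
    have : ((Finset.Icc 1 m).filter P).card ≤
        ((Finset.Icc 1 m).filter fun v : ℕ => |((q - NZ t : ℕ) : ℝ) - v| < x + 1).card := by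
      apply Finset.card_le_card
      intro v hv
      rw [Finset.mem_filter] at hv ⊢
      refine ⟨hv.1, ?_⟩
      have h1 := hx v hv.1
      unfold DD at h1
      rw [hP v hv.1 hv.2] at h1
      rw [Nat.cast_sub hq]
      linarith
    exact_mod_cast this
  · rw [Finset.not_nonempty_iff_eq_empty] at hne
    rw [hne, Finset.card_empty, Nat.cast_zero]
    linarith

/-- many long runs -/
lemma tl1 {T t x y : ℝ} (hL : 0 < Real.log T) {n R m : ℕ} (hn : 1 ≤ n) (h1 : t < ord n)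
    (h2 : ord n < t + 2 * Real.pi / Real.log T) (hm : m ≤ R) (hy : 0 ≤ y) (hx0 : 0 ≤ x)
    (hx : ∀ v ∈ Finset.Icc 1 m, |DD T t v| ≤ x) (hS : ∀ r ∈ Finset.Icc 1 R, |SS r n - pr T r n| ≤ 1) :
    (cD m (-1) y T t : ℝ) ≤ 3 * (x + 1) * cS R n 1 (y - 2) := by
  classical
  have hpi := Real.pi_pos
  have hn1 : n ≤ NZ (t + 2 * Real.pi / Real.log T) := (SG.ord_le_iff hn _).1 h2.le
  have hn2 : NZ t < n := by
    by_contra hcon
    push Not at hcon
    have := (SG.ord_le_iff hn _).2 hcon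
    linarith
  have hn2R : (NZ t : ℝ) + 1 ≤ n := by exact_mod_cast hn2
  obtain ⟨f, hf⟩ : ∃ f : ℕ → ℕ, f = fun v : ℕ => NZ (t + 2 * Real.pi * (v : ℝ) / Real.log T) + 1 - n := ⟨_, rfl⟩
  have hfn : ∀ v ∈ Finset.Icc 1 m, n ≤ NZ (t + 2 * Real.pi * (v : ℝ) / Real.log T) := by
    intro v hv
    rw [Finset.mem_Icc] at hv
    have hv1 : (1 : ℝ) ≤ v := by exact_mod_cast hv.1
    refine hn1.trans (SG.NZ_mono ?_)
    have : 2 * Real.pi / Real.log T ≤ 2 * Real.pi * v / Real.log T := by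
      apply div_le_div_of_nonneg_right _ hL.le
      nlinarith
    linarith
  have hmaps : ∀ v ∈ (Finset.Icc 1 m).filter (fun v : ℕ => y ≤ -1 * DD T t v), f v ∈
      (Finset.Icc 1 R).filter (fun r : ℕ => y - 2 ≤ 1 * (SS r n - r)) := by
    intro v hv
    rw [Finset.mem_filter] at hv
    obtain ⟨hvm, hvy⟩ := hv
    have hnq := hfn v hvm
    rw [Finset.mem_Icc] at hvm
    have hv1 : (1 : ℝ) ≤ v := by exact_mod_cast hvm.1
    have hvR : (v : ℝ) ≤ R := by exact_mod_cast hvm.2.trans hm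
    obtain ⟨q, hq⟩ : ∃ q : ℕ, q = NZ (t + 2 * Real.pi * (v : ℝ) / Real.log T) := ⟨_, rfl⟩
    unfold DD at hvy
    rw [← hq] at hvy hnq
    obtain ⟨r, hr⟩ : ∃ r : ℕ, q + 1 = n + r := ⟨q + 1 - n, by omega⟩
    have hrR : (q : ℝ) + 1 = n + r := by exact_mod_cast hr
    have hfr : f v = r := by
      rw [hf]
      show NZ (t + 2 * Real.pi * (v : ℝ) / Real.log T) + 1 - n = r
      rw [← hq]
      omega
    rw [hfr, Finset.mem_filter]
    have hrm : r ∈ Finset.Icc 1 R := by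
      rw [Finset.mem_Icc]
      refine ⟨by omega, ?_⟩
      have : (r : ℝ) ≤ R := by linarith
      exact_mod_cast this
    refine ⟨hrm, ?_⟩
    have h3 : t + 2 * Real.pi * (v : ℝ) / Real.log T < ord (n + r) := by
      by_contra hc
      push Not at hc
      rw [SG.ord_le_iff (by omega), ← hq] at hc
      omega
    rw [ord_pr hL] at h3
    have h4 : 2 * Real.pi * (v - 1) / Real.log T < 2 * Real.pi * pr T r n / Real.log T := by
      have e : 2 * Real.pi * (v - 1) / Real.log T = 2 * Real.pi * v / Real.log T - 2 * Real.pi / Real.log T := by ring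
      rw [e]
      linarith
    rw [div_lt_div_iff_of_pos_right hL] at h4
    have h5 : (v : ℝ) - 1 < pr T r n := lt_of_mul_lt_mul_left h4 (by positivity)
    have h6 := (abs_le.1 (hS r hrm)).1
    linarith
  have hfib : ∀ b ∈ (Finset.Icc 1 R).filter (fun r : ℕ => y - 2 ≤ 1 * (SS r n - r)),
      (((Finset.Icc 1 m).filter (fun v : ℕ => y ≤ -1 * DD T t v)).filter fun v => f v = b).card ≤
      ⌊3 * (x + 1)⌋₊ := by
    intro b _
    apply Nat.le_floor
    rw [Finset.filter_filter]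
    refine fib hL m (b + n - 1) hx0 _ hx ?_
    intro v hv hvP
    have hnq := hfn v hv
    have h3 := hvP.2
    rw [hf] at h3
    simp only at h3
    omega
  have h3 := Finset.card_le_mul_card_image_of_maps_to hmaps _ hfib
  unfold cD cS
  have h4 : ((⌊3 * (x + 1)⌋₊ : ℕ) : ℝ) ≤ 3 * (x + 1) := Nat.floor_le (by linarith)
  calc (((Finset.Icc 1 m).filter (fun v : ℕ => y ≤ -1 * DD T t v)).card : ℝ) ≤
      ((⌊3 * (x + 1)⌋₊ * ((Finset.Icc 1 R).filter (fun r : ℕ => y - 2 ≤ 1 * (SS r n - r))).card : ℕ) : ℝ) := by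
        exact_mod_cast h3
    _ ≤ _ := by
        push_cast
        exact mul_le_mul_of_nonneg_right h4 (Nat.cast_nonneg _)

/-- many short runs -/
lemma tl2 {T t x y z : ℝ} (hL : 0 < Real.log T) {n R m : ℕ} (hn : 1 ≤ n) (h1 : t < ord n)
    (h2 : ord n < t + 2 * Real.pi / Real.log T) (hz : ((NZ (t + 2 * Real.pi / Real.log T) : ℝ) - NZ t) ≤ z)
    (hmR : m + x ≤ R) (hy : z + 1 ≤ y) (hx0 : 0 ≤ x)
    (hx : ∀ v ∈ Finset.Icc 1 m, |DD T t v| ≤ x) (hS : ∀ r ∈ Finset.Icc 1 R, |SS r n - pr T r n| ≤ 1) :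
    (cD m 1 y T t : ℝ) ≤ 3 * (x + 1) * cS R n (-1) (y - z - 1) := by
  classical
  have hpi := Real.pi_pos
  have hn1 : n ≤ NZ (t + 2 * Real.pi / Real.log T) := (SG.ord_le_iff hn _).1 h2.le
  have hn2 : NZ t < n := by
    by_contra hcon
    push Not at hcon
    have := (SG.ord_le_iff hn _).2 hcon
    linarith
  have hn1R : (n : ℝ) ≤ NZ (t + 2 * Real.pi / Real.log T) := by exact_mod_cast hn1
  have hn2R : (NZ t : ℝ) + 1 ≤ n := by exact_mod_cast hn2
  obtain ⟨f, hf⟩ : ∃ f : ℕ → ℕ, f = fun v : ℕ => NZ (t + 2 * Real.pi * (v : ℝ) / Real.log T) - n := ⟨_, rfl⟩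
  have hfn : ∀ v ∈ Finset.Icc 1 m, n ≤ NZ (t + 2 * Real.pi * (v : ℝ) / Real.log T) := by
    intro v hv
    rw [Finset.mem_Icc] at hv
    have hv1 : (1 : ℝ) ≤ v := by exact_mod_cast hv.1
    refine hn1.trans (SG.NZ_mono ?_)
    have : 2 * Real.pi / Real.log T ≤ 2 * Real.pi * v / Real.log T := by
      apply div_le_div_of_nonneg_right _ hL.le
      nlinarith
    linarith
  have hmaps : ∀ v ∈ (Finset.Icc 1 m).filter (fun v : ℕ => y ≤ 1 * DD T t v), f v ∈
      (Finset.Icc 1 R).filter (fun r : ℕ => y - z - 1 ≤ -1 * (SS r n - r)) := by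
    intro v hv
    rw [Finset.mem_filter] at hv
    obtain ⟨hvm, hvy⟩ := hv
    have hxv := (abs_le.1 (hx v hvm)).2
    rw [Finset.mem_Icc] at hvm
    have hv1 : (1 : ℝ) ≤ v := by exact_mod_cast hvm.1
    have hvR : (v : ℝ) ≤ m := by exact_mod_cast hvm.2
    obtain ⟨q, hq⟩ : ∃ q : ℕ, q = NZ (t + 2 * Real.pi * (v : ℝ) / Real.log T) := ⟨_, rfl⟩
    unfold DD at hvy hxv
    rw [← hq] at hvy hxv
    have hqn : (n : ℝ) + 1 ≤ q := by linarith
    have hqn' : n + 1 ≤ q := by exact_mod_cast hqn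
    obtain ⟨r, hr⟩ : ∃ r : ℕ, q = n + r := ⟨q - n, by omega⟩
    have hrR : (q : ℝ) = n + r := by exact_mod_cast hr
    have hfr : f v = r := by
      rw [hf]
      show NZ (t + 2 * Real.pi * (v : ℝ) / Real.log T) - n = r
      rw [← hq]
      omega
    rw [hfr, Finset.mem_filter]
    have hrm : r ∈ Finset.Icc 1 R := by
      rw [Finset.mem_Icc]
      refine ⟨by omega, ?_⟩
      have : (r : ℝ) ≤ R := by linarith
      exact_mod_cast this
    refine ⟨hrm, ?_⟩
    have h3 : ord (n + r) ≤ t + 2 * Real.pi * (v : ℝ) / Real.log T := by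
      rw [SG.ord_le_iff (by omega), ← hq, hr]
    rw [ord_pr hL] at h3
    have h4 : 2 * Real.pi * pr T r n / Real.log T < 2 * Real.pi * v / Real.log T := by linarith
    rw [div_lt_div_iff_of_pos_right hL] at h4
    have h5 : pr T r n < v := lt_of_mul_lt_mul_left h4 (by positivity)
    have h6 := (abs_le.1 (hS r hrm)).2
    linarith
  have hfib : ∀ b ∈ (Finset.Icc 1 R).filter (fun r : ℕ => y - z - 1 ≤ -1 * (SS r n - r)),
      (((Finset.Icc 1 m).filter (fun v : ℕ => y ≤ 1 * DD T t v)).filter fun v => f v = b).card ≤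
      ⌊3 * (x + 1)⌋₊ := by
    intro b _
    apply Nat.le_floor
    rw [Finset.filter_filter]
    refine fib hL m (b + n) hx0 _ hx ?_
    intro v hv hvP
    have hnq := hfn v hv
    have h3 := hvP.2
    rw [hf] at h3
    simp only at h3
    omega
  have h3 := Finset.card_le_mul_card_image_of_maps_to hmaps _ hfib
  unfold cD cS
  have h4 : ((⌊3 * (x + 1)⌋₊ : ℕ) : ℝ) ≤ 3 * (x + 1) := Nat.floor_le (by linarith)
  calc (((Finset.Icc 1 m).filter (fun v : ℕ => y ≤ 1 * DD T t v)).card : ℝ) ≤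
      ((⌊3 * (x + 1)⌋₊ * ((Finset.Icc 1 R).filter (fun r : ℕ => y - z - 1 ≤ -1 * (SS r n - r))).card : ℕ) : ℝ) := by
        exact_mod_cast h3
    _ ≤ _ := by
        push_cast
        exact mul_le_mul_of_nonneg_right h4 (Nat.cast_nonneg _)

/-- the numerical part -/
lemma gqn {ε e l l2 lh x z : ℝ} {R n : ℕ} (he : 0 < e) (hε : ε = 8 * e) (hε1 : ε ≤ 1)
    (hl : l = Real.log R) (hR : 2 ≤ R) (hl2 : l2 = Real.log ((2 * R : ℕ) : ℝ)) (hlh : lh = Real.log ((R / 2 : ℕ) : ℝ))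
    (hl2u : l2 ≤ l + 1) (hlhl : l - 2 ≤ lh) (hz : z = e / 8 * l) (hel : 24 ≤ e * l)
    (hx : 3 * (x + 1) ≤ Real.exp (e * l)) {T t : ℝ}
    (hU : ∀ σ : ℝ, σ ^ 2 = 1 → ∀ y : ℝ, 1 ≤ y → y ≤ l → cS R n σ y ≤ cD (2 * R) (-σ) (y - z - 2) T t)
    (hLw : ∀ σ : ℝ, σ ^ 2 = 1 → ∀ y : ℝ, 0 ≤ y → (cD (R / 2) (-σ) (y + z + 2) T t : ℝ) ≤ 3 * (x + 1) * cS R n σ y)
    (h2 : t ∈ Gd e (2 * R) T) (hh : t ∈ Gd e (R / 2) T) : Gq ε R n := by
  have hpi := Real.pi_pos
  have hpi3 := Real.pi_gt_three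
  have hpi4 := Real.pi_lt_d2
  have he8 : e ≤ 1 / 8 := by linarith
  have hl0 : 0 < l := by
    by_contra hcon
    push Not at hcon
    nlinarith
  have hl24 : 24 * 8 ≤ l := by nlinarith
  have hRexp : (R : ℝ) = Real.exp l := by
    rw [hl, Real.exp_log]
    have : (2 : ℝ) ≤ R := by exact_mod_cast hR
    linarith
  have hip : 1 / 4 ≤ 1 / Real.pi := one_div_le_one_div_of_le hpi (by linarith)
  have hip3 : 1 / Real.pi ≤ 1 / 3 := one_div_le_one_div_of_le (by norm_num) hpi3.le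
  intro σ hσ a ha0 ha1
  have hσ' : (-σ) ^ 2 = 1 := by rw [neg_sq]; exact hσ
  rw [← hl]
  constructor
  · -- many
    have ha' : a + e ≤ 1 - e := by linarith
    have h1 := (hh (-σ) hσ' (a + e) (by linarith) ha').1
    rw [← hlh] at h1
    have hlev : a / Real.pi * l + z + 2 ≤ (a + e) / Real.pi * lh := by
      have q1 : (a + e) / Real.pi * (l - 2) ≤ (a + e) / Real.pi * lh :=
        mul_le_mul_of_nonneg_left hlhl (by positivity)
      have q2 : (a + e) / Real.pi * (l - 2) = a / Real.pi * l + e / Real.pi * l - 2 * ((a + e) / Real.pi) := by ring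
      have q3 : (a + e) / Real.pi ≤ 1 / 3 := by
        rw [div_le_div_iff₀ hpi (by norm_num)]
        nlinarith
      have q4 : e / 4 * l ≤ e / Real.pi * l := by
        apply mul_le_mul_of_nonneg_right _ hl0.le
        exact div_le_div_of_nonneg_left he.le hpi (by linarith)
      rw [hz]
      linarith
    have h3 : (cD (R / 2) (-σ) ((a + e) / Real.pi * lh) T t : ℝ) ≤ cD (R / 2) (-σ) (a / Real.pi * l + z + 2) T t := by
      exact_mod_cast cD_mono _ _ _ _ hlev
    have h4 := hLw σ hσ (a / Real.pi * l) (by positivity)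
    have h5 : Real.exp ((1 - (a + e) ^ 2 - e) * lh) ≤ Real.exp (e * l) * cS R n σ (a / Real.pi * l) :=
      (h1.trans (h3.trans h4)).trans (mul_le_mul_of_nonneg_right hx (Nat.cast_nonneg _))
    have h6 : Real.exp ((1 - (a + e) ^ 2 - e) * lh - e * l) ≤ cS R n σ (a / Real.pi * l) := by
      rw [Real.exp_sub, div_le_iff₀ (Real.exp_pos _)]
      linarith
    refine le_trans (Real.exp_le_exp.2 ?_) h6
    have c0 : 0 ≤ 1 - (a + e) ^ 2 - e := by nlinarith
    have c1 : 1 - (a + e) ^ 2 - e ≤ 1 := by nlinarith [sq_nonneg (a + e)]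
    have c2 : (1 - (a + e) ^ 2 - e) * (l - 2) ≤ (1 - (a + e) ^ 2 - e) * lh := mul_le_mul_of_nonneg_left hlhl c0
    have c3 : (1 - a ^ 2 - 4 * e) * l ≤ (1 - (a + e) ^ 2 - e) * l := by
      apply mul_le_mul_of_nonneg_right _ hl0.le
      nlinarith
    rw [hε]
    linarith
  · -- not too many
    rcases lt_or_ge a (2 * e) with hae | hae
    · have h1 : (cS R n σ (a / Real.pi * l) : ℝ) ≤ R := by exact_mod_cast cS_le _ _ _ _
      refine h1.trans ?_
      rw [hRexp]
      apply Real.exp_le_exp.2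
      have : a ^ 2 ≤ ε := by nlinarith
      nlinarith
    · have hy1 : 1 ≤ a / Real.pi * l := by
        have q1 : 2 * e / 4 ≤ a / Real.pi := by
          have : 2 * e / 4 ≤ 2 * e / Real.pi := div_le_div_of_nonneg_left (by positivity) hpi (by linarith)
          exact this.trans (div_le_div_of_nonneg_right hae hpi.le)
        have q2 := mul_le_mul_of_nonneg_right q1 hl0.le
        linarith
      have hyl : a / Real.pi * l ≤ l := by
        have : a / Real.pi ≤ 1 := by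
          rw [div_le_one hpi]
          linarith
        nlinarith
      have h1 := hU σ hσ (a / Real.pi * l) hy1 hyl
      have hlev : (a - e) / Real.pi * l2 ≤ a / Real.pi * l - z - 2 := by
        have q0 : 0 ≤ (a - e) / Real.pi := div_nonneg (by linarith) hpi.le
        have q1 : (a - e) / Real.pi * l2 ≤ (a - e) / Real.pi * (l + 1) := mul_le_mul_of_nonneg_left hl2u q0
        have q2 : (a - e) / Real.pi * (l + 1) = a / Real.pi * l - e / Real.pi * l + (a - e) / Real.pi := by ring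
        have q3 : (a - e) / Real.pi ≤ 1 / 3 := by
          rw [div_le_div_iff₀ hpi (by norm_num)]
          nlinarith
        have q4 : e / 4 * l ≤ e / Real.pi * l := by
          apply mul_le_mul_of_nonneg_right _ hl0.le
          exact div_le_div_of_nonneg_left he.le hpi (by linarith)
        rw [hz]
        linarith
      have h3 := (h2 (-σ) hσ' (a - e) (by linarith) (by linarith)).2
      rw [← hl2] at h3
      have h4 : (cS R n σ (a / Real.pi * l) : ℝ) ≤ cD (2 * R) (-σ) ((a - e) / Real.pi * l2) T t := by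
        exact_mod_cast h1.trans (cD_mono _ _ _ _ hlev)
      refine (h4.trans h3).trans (Real.exp_le_exp.2 ?_)
      have c0 : 0 ≤ 1 - (a - e) ^ 2 + e := by nlinarith
      have c1 : (1 - (a - e) ^ 2 + e) * l2 ≤ (1 - (a - e) ^ 2 + e) * (l + 1) := mul_le_mul_of_nonneg_left hl2u c0
      have c2 : 1 - (a - e) ^ 2 + e ≤ 2 := by nlinarith [sq_nonneg (a - e)]
      have c3 : (1 - (a - e) ^ 2 + e) * l ≤ (1 - a ^ 2 + 3 * e) * l := by
        apply mul_le_mul_of_nonneg_right _ hl0.le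
        nlinarith
      rw [hε]
      linarith

/-- **one block** -/
theorem blkd (RH : RiemannHypothesis) {ε δ : ℝ} (hε : 0 < ε) (hε1 : ε ≤ 1) (hδ : 0 < δ) :
    ∀ᶠ R : ℕ in atTop, ∀ᶠ T in atTop, ∀ A A' : ℝ, T + Real.log T + 20 ≤ A →
      A' ≤ 2 * T - Real.log T - 20 → ∀ B : Finset ℕ, B ⊆ Finset.Ioc (NZ A) (NZ A') →
      (∀ n ∈ B, ¬ Gq ε R n) → (B.card : ℝ) ≤ δ * (T * Real.log T) := by
  obtain ⟨C2, hC2, hcs⟩ := cnt_sq RH
  obtain ⟨θ, hθ⟩ : ∃ θ : ℝ, θ = 2 * δ / C2 := ⟨_, rfl⟩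
  have hθ0 : 0 < θ := by rw [hθ]; positivity
  obtain ⟨d, hd⟩ : ∃ d : ℝ, d = θ * δ / 2 := ⟨_, rfl⟩
  have hd0 : 0 < d := by rw [hd]; positivity
  have hpi := Real.pi_pos
  have hpi3 := Real.pi_gt_three
  have hpi4 := Real.pi_lt_d2
  obtain ⟨e, he⟩ : ∃ e : ℝ, e = ε / 8 := ⟨_, rfl⟩
  have he0 : 0 < e := by rw [he]; positivity
  have he8 : ε = 8 * e := by rw [he]; ring
  have hcont := cont RH (ε := 1 / 10) (δ := d) (by norm_num) hd0
  have hcontd := contd RH (ε := e) (δ := d) he0 (by linarith) hd0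
  have hl := log_tendsto
  have hR : Tendsto (fun R : ℕ => (R : ℝ)) atTop atTop := tendsto_natCast_atTop_atTop
  have hlogR : ∀ᶠ R : ℕ in atTop, Real.log R ≤ R / 10 := by
    have h2 := Real.isLittleO_log_id_atTop.bound (c := 1 / 10) (by positivity)
    have h3 := hR.eventually h2
    filter_upwards [h3, eventually_ge_atTop 1] with R hR1 hR2
    have hR2' : (1 : ℝ) ≤ R := by exact_mod_cast hR2
    rw [id, Real.norm_of_nonneg (Real.log_nonneg hR2'), Real.norm_of_nonneg (by linarith)] at hR1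
    linarith
  have hexp : ∀ᶠ R : ℕ in atTop, 3 * Real.log R ≤ Real.exp (e * Real.log R) := by
    have h3 : (fun x : ℝ => x) =o[atTop] fun x : ℝ => Real.exp (e * x) := by
      have := isLittleO_pow_exp_pos_mul_atTop 1 he0
      simpa using this
    have h4 := h3.bound (show (0 : ℝ) < 1 / 3 by positivity)
    have h5 : ∀ᶠ x : ℝ in atTop, 3 * x ≤ Real.exp (e * x) := by
      filter_upwards [h4, eventually_ge_atTop 0] with x hx hx0
      rw [Real.norm_of_nonneg hx0, Real.norm_of_nonneg (Real.exp_pos _).le] at hx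
      linarith
    exact hl.eventually h5
  have hzz := (hl.const_mul_atTop (show 0 < e / 8 by positivity)).eventually_ge_atTop (Real.sqrt (C2 / d))
  filter_upwards [two_tendsto.eventually hcont, two_tendsto.eventually hcontd, half_tendsto.eventually hcontd,
    hlogR, hexp, hzz, hl.eventually_ge_atTop (24 / e), hl.eventually_ge_atTop 200, eventually_ge_atTop 100]
    with R c1 c2 c3 h3 hex h4 h5 h6 h7
  have hR100 : (100 : ℝ) ≤ R := by exact_mod_cast h7
  obtain ⟨l, hl'⟩ : ∃ l : ℝ, l = Real.log R := ⟨_, rfl⟩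
  rw [← hl'] at h3 h4 h5 h6 hex
  obtain ⟨z, hz⟩ : ∃ z : ℝ, z = e / 8 * l := ⟨_, rfl⟩
  rw [← hz] at h4
  have hz0 : 0 < z := by rw [hz]; positivity
  have hzC : C2 ≤ d * z ^ 2 := by
    have h8 : Real.sqrt (C2 / d) ^ 2 ≤ z ^ 2 := pow_le_pow_left₀ (Real.sqrt_nonneg _) h4 2
    rw [Real.sq_sqrt (by positivity), div_le_iff₀ hd0] at h8
    linarith
  have h5' : 24 ≤ e * l := by
    rw [div_le_iff₀ he0] at h5
    linarith
  filter_upwards [c1, c2, c3, hcs, Real.tendsto_log_atTop.eventually_ge_atTop (6 * R), eventually_ge_atTop 100]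
    with T t1 t2 t2' t3 hTL hT100 A A' hA hA' B hBs hBb
  obtain ⟨F, nF, hFc, hF2⟩ := t3
  have hT0 : 0 < T := by linarith
  have hL : 0 < Real.log T := by linarith
  have hL100 : 600 ≤ Real.log T := by linarith
  -- the exceptional set
  obtain ⟨S, hS⟩ : ∃ S : Set ℝ, S = ((Gt (1 / 10) (2 * R) T)ᶜ ∪ ((Gd e (2 * R) T)ᶜ ∪ (Gd e (R / 2) T)ᶜ)) ∪
    {t | z ^ 2 ≤ F t ^ 2} := ⟨_, rfl⟩
  have hPS : Pb T S ≤ 4 * d := by
    rw [hS]
    have p1 := Pb_union hT0 ((Gt (1 / 10) (2 * R) T)ᶜ ∪ ((Gd e (2 * R) T)ᶜ ∪ (Gd e (R / 2) T)ᶜ)) {t | z ^ 2 ≤ F t ^ 2}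
    have p2 := Pb_union hT0 (Gt (1 / 10) (2 * R) T)ᶜ ((Gd e (2 * R) T)ᶜ ∪ (Gd e (R / 2) T)ᶜ)
    have p2' := Pb_union hT0 (Gd e (2 * R) T)ᶜ (Gd e (R / 2) T)ᶜ
    have nF2 : Nc T fun t => F t ^ 2 := by
      have := nF.mul nF
      simpa only [sq] using this
    have p3 := Pb_markov hT0 nF2 (fun t _ => sq_nonneg _) (show 0 < z ^ 2 by positivity)
    have p4 : EX T (fun t => F t ^ 2) / z ^ 2 ≤ d := by
      rw [div_le_iff₀ (by positivity)]
      linarith
    linarith
  have hl2 : 2 * Real.pi / Real.log T ≤ 1 := by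
    rw [div_le_one hL]
    linarith
  -- logarithms
  have hlog2R : Real.log ((2 * R : ℕ) : ℝ) ≤ l + 1 := by
    push_cast
    rw [Real.log_mul (by norm_num) (by linarith), ← hl']
    have := log2_lt
    linarith
  have hlog2R' : l ≤ Real.log ((2 * R : ℕ) : ℝ) := by
    rw [hl']
    apply Real.log_le_log (by linarith)
    push_cast
    linarith
  have hlogh' : Real.log ((R / 2 : ℕ) : ℝ) ≤ l := by
    rw [hl']
    apply Real.log_le_log
    · have : 1 ≤ R / 2 := by omega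
      have : (1 : ℝ) ≤ ((R / 2 : ℕ) : ℝ) := by exact_mod_cast this
      linarith
    · exact_mod_cast Nat.div_le_self R 2
  have hlogh : l - 2 ≤ Real.log ((R / 2 : ℕ) : ℝ) := by
    have h8 : R / 3 ≤ ((R / 2 : ℕ) : ℝ) := by
      have : R ≤ 3 * (R / 2) := by omega
      have : (R : ℝ) ≤ 3 * ((R / 2 : ℕ) : ℝ) := by exact_mod_cast this
      linarith
    have h9 : Real.log (R / 3) ≤ Real.log ((R / 2 : ℕ) : ℝ) := Real.log_le_log (by positivity) h8
    rw [Real.log_div (by linarith) (by norm_num), ← hl'] at h9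
    have h10 : Real.log 3 ≤ 2 := by
      rw [Real.log_le_iff_le_exp (by norm_num)]
      have := Real.add_one_le_exp (2 : ℝ)
      linarith
    linarith
  have hip : 1 / Real.pi ≤ 1 / 3 := one_div_le_one_div_of_le (by norm_num) hpi3.le
  obtain ⟨x, hx⟩ : ∃ x : ℝ, x = (1 / Real.pi + 1 / 10) * Real.log ((2 * R : ℕ) : ℝ) := ⟨_, rfl⟩
  have hx1 : x ≤ l / 2 := by
    rw [hx]
    calc (1 / Real.pi + 1 / 10) * Real.log ((2 * R : ℕ) : ℝ) ≤ (1 / Real.pi + 1 / 10) * (l + 1) :=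
          mul_le_mul_of_nonneg_left hlog2R (by positivity)
      _ ≤ (1 / 3 + 1 / 10) * (l + 1) := mul_le_mul_of_nonneg_right (by linarith) (by linarith)
      _ ≤ _ := by linarith
  have hx0 : 0 ≤ x := by
    rw [hx]
    have : 0 ≤ Real.log ((2 * R : ℕ) : ℝ) := Real.log_nonneg (by push_cast; linarith)
    positivity
  have hz1 : z ≤ l / 64 := by
    rw [hz]
    have : e * l ≤ 1 / 8 * l := mul_le_mul_of_nonneg_right (by linarith) (by linarith)
    linarith
  have hx3 : 3 * (x + 1) ≤ Real.exp (e * l) := by linarith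
  have hB : ∀ n ∈ B, 1 ≤ n ∧ Ioo (ord n - 2 * Real.pi / Real.log T) (ord n) ⊆ Wd T ∧
      ∀ t ∈ Ioo (ord n - 2 * Real.pi / Real.log T) (ord n), t ∈ S := by
    intro n hn
    have hn1 := Finset.mem_Ioc.1 (hBs hn)
    have hn0 : 1 ≤ n := by omega
    have ho1 : A < ord n := by
      by_contra hcon
      push Not at hcon
      have := (SG.ord_le_iff hn0 _).1 hcon
      omega
    have ho2 : ord n ≤ A' := (SG.ord_le_iff hn0 _).2 hn1.2
    have hsub : Ioo (ord n - 2 * Real.pi / Real.log T) (ord n) ⊆ Wd T := by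
      intro t ht
      unfold Wd
      rw [mem_Icc]
      constructor <;> linarith [ht.1, ht.2]
    refine ⟨hn0, hsub, fun t ht => ?_⟩
    by_contra hcon
    apply hBb n hn
    have htW := hsub ht
    rw [hS] at hcon
    simp only [mem_union, mem_compl_iff, mem_ofPred_eq, not_or, not_not, not_le] at hcon
    obtain ⟨⟨k1, k2, k2'⟩, k3⟩ := hcon
    have hc0 : (0 : ℝ) ≤ (NZ (t + 2 * Real.pi / Real.log T) : ℝ) - NZ t := by
      rw [sub_nonneg]
      exact_mod_cast SG.NZ_mono (by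
        have : 0 < 2 * Real.pi / Real.log T := by positivity
        linarith)
    have hcz : ((NZ (t + 2 * Real.pi / Real.log T) : ℝ) - NZ t) ≤ z := by
      have h8 := hFc t htW
      have h10 : F t < z := lt_of_pow_lt_pow_left₀ 2 hz0.le k3
      linarith
    have hxx : ∀ v ∈ Finset.Icc 1 (2 * R), |DD T t v| ≤ x := by
      intro v hv
      rw [hx]
      exact k1.1 v hv
    have hord2 : ord n < t + 2 * Real.pi / Real.log T := by linarith [ht.1]
    have hxR : x + z + 3 ≤ R := by linarith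
    have D1 : ∀ r ∈ Finset.Icc 1 R, |pr T r n - r| ≤ x + z + 2 := fun r hr =>
      det1 hL hn0 ht.2 hord2 hcz hx0 hxx hxR hr
    have hm2 : ((R / 2 : ℕ) : ℝ) ≤ R / 2 := Nat.cast_div_le
    have D4 : ∀ r ∈ Finset.Icc 1 R, |SS r n - pr T r n| ≤ 1 := by
      intro r hr
      have h8 := (abs_le.1 (D1 r hr)).2
      have hrR : (r : ℝ) ≤ R := by exact_mod_cast (Finset.mem_Icc.1 hr).2
      have h9 : pr T r n ≤ 2 * R := by linarith
      have h10 : 2 * Real.pi * pr T r n / Real.log T ≤ 20 := by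
        rw [div_le_iff₀ hL]
        have : 2 * Real.pi * pr T r n ≤ 2 * Real.pi * (2 * R) := mul_le_mul_of_nonneg_left h9 (by positivity)
        nlinarith
      have h11 := SS_pr (r := r) hT100 hn0 (by linarith) (by
        rw [ord_pr hL]
        linarith)
      refine h11.trans ?_
      rw [div_mul_eq_mul_div, div_le_one hL]
      linarith
    have hxh : ∀ v ∈ Finset.Icc 1 (R / 2), |DD T t v| ≤ x := by
      intro v hv
      apply hxx v
      rw [Finset.mem_Icc] at hv ⊢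
      omega
    refine gqn (z := z) (x := x) he0 he8 hε1 hl' (by omega) rfl rfl hlog2R hlogh hz h5' hx3
      ?_ ?_ k2 k2'
    · intro σ hσ y hy1 hyl
      rcases sq_one hσ with h | h
      · rw [h]
        exact tu1 hL hn0 ht.2 hord2 hcz hy1 (by linarith) D4
      · rw [h, neg_neg]
        exact tu2 hL hn0 ht.2 hord2 hz0.le hy1 (by omega) D4
    · intro σ hσ y hy0
      rcases sq_one hσ with h | h
      · rw [h]
        have h8 := tl1 (R := R) (m := R / 2) (y := y + z + 2) hL hn0 ht.2 hord2 (by omega) (by linarith) hx0 hxh D4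
        refine h8.trans ?_
        apply mul_le_mul_of_nonneg_left _ (by linarith)
        exact_mod_cast cS_mono R n 1 (by linarith : y ≤ y + z + 2 - 2)
      · rw [h, neg_neg]
        have h8 := tl2 (R := R) (m := R / 2) (y := y + z + 2) hL hn0 ht.2 hord2 hcz (by linarith) (by linarith)
          hx0 hxh D4
        refine h8.trans ?_
        apply mul_le_mul_of_nonneg_left _ (by linarith)
        exact_mod_cast cS_mono R n (-1) (by linarith : y ≤ y + z + 2 - z - 1)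
  have hP := palm (by linarith : (1 : ℝ) ≤ T) hL hθ0 B S F nF hFc hF2 hPS hB
  have e1 : θ / 2 * C2 + 4 * d / (2 * θ) = 2 * δ := by
    rw [hd, hθ]
    field_simp
    ring
  rw [e1] at hP
  have e2 : (B.card : ℝ) * (2 * Real.pi / Real.log T) = (B.card : ℝ) * (2 * Real.pi) / Real.log T := by ring
  rw [e2, div_le_iff₀ hL] at hP
  have e3 : (B.card : ℝ) * 2 ≤ (B.card : ℝ) * (2 * Real.pi) := by
    apply mul_le_mul_of_nonneg_left _ (Nat.cast_nonneg _)
    linarith
  have h9 : 0 ≤ δ * (T * Real.log T) := by positivity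
  nlinarith

lemma Gq.mono {e ε : ℝ} (h : e ≤ ε) {R n : ℕ} (hR : 1 ≤ R) (hg : Gq e R n) : Gq ε R n := by
  have hlR : 0 ≤ Real.log (R : ℝ) := Real.log_nonneg (by exact_mod_cast hR)
  intro σ hσ a ha0 ha1
  obtain ⟨h1, h2⟩ := hg σ hσ a ha0 (by linarith)
  refine ⟨le_trans (Real.exp_le_exp.2 ?_) h1, h2.trans (Real.exp_le_exp.2 ?_)⟩
  · exact mul_le_mul_of_nonneg_right (by linarith) hlR
  · exact mul_le_mul_of_nonneg_right (by linarith) hlR

open Classical in
/-- **all zeros** -/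
theorem allq (RH : RiemannHypothesis) {ε : ℝ} (hε : 0 < ε) :
    ∀ᶠ R : ℕ in atTop, ∀ᶠ N : ℕ in atTop,
      (((Finset.Icc 1 N).filter fun n => ¬ Gq ε R n).card : ℝ) ≤ ε * N := by
  obtain ⟨e, he⟩ : ∃ e : ℝ, e = min ε 1 := ⟨_, rfl⟩
  have he0 : 0 < e := by rw [he]; positivity
  have he1 : e ≤ ε := by rw [he]; exact min_le_left _ _
  have he2 : e ≤ 1 := by rw [he]; exact min_le_right _ _
  obtain ⟨ε', hε', hall⟩ := allX ε hε
  filter_upwards [blkd RH he0 he2 hε', eventually_ge_atTop 1] with R hR hR1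
  have := hall (fun n => if ¬ Gq ε R n then 1 else 0) (fun n => by
    split_ifs <;> simp) (by
    filter_upwards [hR] with T hT A A' hA hA'
    have h1 := hT A A' hA hA' ((Finset.Ioc (NZ A) (NZ A')).filter fun n => ¬ Gq ε R n)
      (Finset.filter_subset _ _) (fun n hn hg => (Finset.mem_filter.1 hn).2 (hg.mono he1 hR1))
    rw [← Finset.sum_filter, Finset.sum_const, nsmul_eq_mul, mul_one, Complex.norm_natCast]
    exact h1)
  filter_upwards [this] with N hN
  rw [← Finset.sum_filter, Finset.sum_const, nsmul_eq_mul, mul_one, Complex.norm_natCast] at hN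
  exact hN

end

end Pool.Agent.K6.H15.TP
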