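import Pool.Agent.K6.H15.TP.Pr
import Pool.Agent.K6.H57.MX.Ct

/-! # Thick points: the number of high points, from a uniform point -/

set_option autoImplicit false

open MeasureTheory Set Filter Topology
open scoped ContDiff NNReal

namespace Pool.Agent.K6.H15.TP

open Pool.Agent.K6.H57.ML Pool.Agent.K6.H57.MX

noncomputable section

variable {K m : ℕ} {η : ℝ}

lemma cZ_mono (K m : ℕ) (σ T t : ℝ) {x y : ℝ} (h : x ≤ y) : cZ K m σ y T t ≤ cZ K m σ x T t := by
  classical
  unfold cZ
  apply Finset.card_le_card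
  intro u hu
  rw [Finset.mem_filter] at hu ⊢
  exact ⟨hu.1, h.trans hu.2⟩

lemma cZ_le (K m : ℕ) (σ x T t : ℝ) : cZ K m σ x T t ≤ m := by
  classical
  unfold cZ
  refine (Finset.card_filter_le _ _).trans ?_
  rw [Nat.card_Icc, Nat.add_sub_cancel]

/-- **many high points** -/
theorem Zcl (K : ℕ) (hK : 8 ≤ K) {σ a e δ : ℝ} (hσ : σ ^ 2 = 1) (ha : 0 ≤ a) (he : 0 < e) (hae : a + e ≤ 1)
    (hKe : 16 / (K : ℝ) ≤ e) (hδ : 0 < δ) :
    ∀ᶠ m : ℕ in atTop, ∀ᶠ T in atTop, Pb T {t | (cZ K m σ (a / Real.pi * Real.log m) T t : ℝ) <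
      Real.exp ((1 - (a + e) ^ 2 - e) * Real.log m)} ≤ δ := by
  obtain ⟨C1, hC1, hC⟩ := Cv_far
  have hKR : (8 : ℝ) ≤ K := by exact_mod_cast hK
  have hpi := Real.pi_pos
  have hpi3 := Real.pi_gt_three
  obtain ⟨η, hη⟩ : ∃ η : ℝ, η = min (δ / 72) (1 / 3) := ⟨_, rfl⟩
  have hη0 : 0 < η := by rw [hη]; positivity
  have hη3 : η ≤ 1 / 3 := by rw [hη]; exact min_le_right _ _
  have hηδ : 72 * η ≤ δ := by
    have : η ≤ δ / 72 := by rw [hη]; exact min_le_left _ _
    linarith
  obtain ⟨b, hb⟩ : ∃ b : ℝ, b = 2 * Real.pi * (a + e) := ⟨_, rfl⟩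
  have hb0 : 0 < b := by rw [hb]; positivity
  have hb2 : b ≤ 2 * Real.pi := by
    rw [hb]
    have : 2 * Real.pi * (a + e) ≤ 2 * Real.pi * 1 := mul_le_mul_of_nonneg_left hae (by positivity)
    linarith
  have he1 : e ≤ 1 := by linarith
  have e1 := exp_small (2 * K * Real.exp 1) (1 / (10 * K ^ 2)) η (by positivity) hη0
  have e2 := exp_small 2 ((e / 2) ^ 2 * (b ^ 2 / (4 * Real.pi ^ 2) * (3 / 8))) η (by positivity) hη0
  have e3 := exp_small (40 * C1) (1 / K) η (by positivity) hη0
  have e4 := exp_small (6 * K * Real.exp (3 + 40 * C1)) (2 / K) η (by positivity) hη0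
  filter_upwards [Big_ev K hK hη0, e1, e2, e3, e4, log_tendsto.eventually_ge_atTop (160 * C1),
    s1_small (e / 4) (by positivity), log_tendsto.eventually_ge_atTop (2 / e)]
    with m h g1 g2 g3 g4 g5 g6 g7
  have hl := h.l1
  have hm2 := h.m2
  have hm0 : (0 : ℝ) < m := by linarith
  have hsec := secondb h hη0 hη3 (ε := e / 2) hσ hb0 hb2 (by positivity) (by linarith) (by
    refine le_trans (le_of_eq ?_) g1
    rw [mul_assoc (2 * (K : ℝ)), ← Real.exp_add]
    congr 2
    ring) (by
    refine le_trans (le_of_eq ?_) g2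
    congr 2
    ring) hC1 g5 hC (by
    refine le_trans (le_of_eq ?_) g3
    congr 2
    ring) (by
    refine le_trans (le_of_eq ?_) g4
    rw [mul_assoc (6 * (K : ℝ)), ← Real.exp_add]
    congr 2
    ring)
  filter_upwards [hsec, eventually_gt_atTop 0] with T hT hT0
  refine le_trans (Pb_mono hT0 fun t _ ht => ?_) (hT.trans hηδ)
  have ht' : (cZ K m σ (a / Real.pi * Real.log m) T t : ℝ) <
      Real.exp ((1 - (a + e) ^ 2 - e) * Real.log m) := ht
  show (cZ K m σ ((1 - e / 2) * b * V0 K m) T t : ℝ) <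
      m / 2 * Real.exp (-(b ^ 2 / 2 * V0 K m + b * sk K m))
  -- the level
  have hs := h.s1ge
  have hv := Vr_lo (a := s1 m) (b := rp K m) (by linarith) h.s1_rp
  have hrl := h.rp_log
  rw [Real.log_div h.rp_pos.ne' (by linarith), hrl] at hv
  have hcast : ((K - 4 : ℕ) : ℝ) * (Real.log m / K) = Real.log m - 4 / K * Real.log m := by
    rw [Nat.cast_sub (by omega)]
    push_cast
    field_simp
  rw [hcast] at hv
  have h4 : 4 / (K : ℝ) ≤ e / 4 := by
    have : 16 / (K : ℝ) = 4 * (4 / K) := by ring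
    linarith
  have h5 : Real.log m * (1 - e / 2) ≤ Real.log m - 4 / K * Real.log m - Real.log (s1 m) - Real.log 2 := by
    have : 4 / (K : ℝ) * Real.log m ≤ e / 4 * Real.log m := mul_le_mul_of_nonneg_right h4 (by linarith)
    linarith
  have h6 : 1 / (2 * Real.pi ^ 2) * (Real.log m * (1 - e / 2)) ≤ V0 K m := by
    refine le_trans ?_ hv
    exact mul_le_mul_of_nonneg_left h5 (by positivity)
  have hlev : a / Real.pi * Real.log m ≤ (1 - e / 2) * b * V0 K m := by
    have h7 : (1 - e / 2) * b * (1 / (2 * Real.pi ^ 2) * (Real.log m * (1 - e / 2))) ≤ (1 - e / 2) * b * V0 K m := by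
      apply mul_le_mul_of_nonneg_left h6
      have : 0 ≤ 1 - e / 2 := by linarith
      positivity
    refine le_trans ?_ h7
    have h8 : (1 - e / 2) * b * (1 / (2 * Real.pi ^ 2) * (Real.log m * (1 - e / 2))) =
        (1 - e / 2) ^ 2 * (a + e) / Real.pi * Real.log m := by
      rw [hb]
      field_simp
    rw [h8]
    apply mul_le_mul_of_nonneg_right _ (by linarith)
    apply div_le_div_of_nonneg_right _ hpi.le
    nlinarith [mul_nonneg ha he.le, mul_nonneg he.le (by linarith : 0 ≤ 1 - (a + e)),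
      mul_nonneg (sq_nonneg e) (by linarith : 0 ≤ a + e)]
  have h9 : (cZ K m σ ((1 - e / 2) * b * V0 K m) T t : ℝ) ≤ cZ K m σ (a / Real.pi * Real.log m) T t := by
    exact_mod_cast cZ_mono K m σ T t hlev
  refine lt_of_le_of_lt h9 (lt_of_lt_of_le ht' ?_)
  -- the exponents
  have hV : V0 K m ≤ 1 / (2 * Real.pi ^ 2) * Real.log m := by
    have := h.Vlog (Nat.zero_le (K - 4))
    rwa [lv_zero] at this
  have hV2 : b ^ 2 / 2 * V0 K m ≤ (a + e) ^ 2 * Real.log m := by
    refine (mul_le_mul_of_nonneg_left hV (by positivity)).trans (le_of_eq ?_)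
    rw [hb]
    field_simp
  have hsk : b * sk K m ≤ e / 16 * Real.log m := by
    have h1 : b * sk K m ≤ 2 * Real.pi * sk K m := mul_le_mul_of_nonneg_right hb2 (by unfold sk; positivity)
    have h2 : 2 * Real.pi * sk K m = 1 / K * Real.log m := by
      unfold sk
      field_simp
    rw [h2] at h1
    refine h1.trans (mul_le_mul_of_nonneg_right ?_ (by linarith))
    have : 16 / (K : ℝ) = 16 * (1 / K) := by ring
    linarith
  have hl2 : Real.log 2 ≤ e / 2 * Real.log m := by
    have := log2_lt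
    rw [div_le_iff₀ he] at g7
    linarith
  have hmexp : (m : ℝ) / 2 = Real.exp (Real.log m - Real.log 2) := by
    rw [Real.exp_sub, h.explog, Real.exp_log (by norm_num)]
  rw [hmexp, ← Real.exp_add]
  apply Real.exp_le_exp.2
  nlinarith

/-- **not too many high points** -/
theorem Zcu (K : ℕ) (hK : 8 ≤ K) {σ a e δ : ℝ} (hσ : σ ^ 2 = 1) (ha : 0 ≤ a) (ha1 : a ≤ 1) (he : 0 < e)
    (hδ : 0 < δ) :
    ∀ᶠ m : ℕ in atTop, ∀ᶠ T in atTop, Pb T {t | Real.exp ((1 - a ^ 2 + e) * Real.log m) ≤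
      (cZ K m σ (a / Real.pi * Real.log m) T t : ℝ)} ≤ δ := by
  classical
  have hKR : (8 : ℝ) ≤ K := by exact_mod_cast hK
  have hpi := Real.pi_pos
  have hpi3 := Real.pi_gt_three
  obtain ⟨η, hη⟩ : ∃ η : ℝ, η = min (δ / 4) (1 / 3) := ⟨_, rfl⟩
  have hη0 : 0 < η := by rw [hη]; positivity
  have hη3 : η ≤ 1 / 3 := by rw [hη]; exact min_le_right _ _
  have hηδ : 4 * η ≤ δ := by
    have : η ≤ δ / 4 := by rw [hη]; exact min_le_left _ _
    linarith
  filter_upwards [Big_ev K hK hη0, exp_small 2 e η he hη0] with m h g1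
  have hl := h.l1
  have hm2 := h.m2
  have hm0 : (0 : ℝ) < m := by linarith
  -- the bulk
  have hmem : (1 : ℕ) ∈ Finset.Icc 1 m := by
    rw [Finset.mem_Icc]
    refine ⟨le_rfl, ?_⟩
    have : (1 : ℝ) ≤ m := by linarith
    exact_mod_cast this
  have L0 := lapA h hη0 hη3 hmem (Nat.zero_le (K - 4)) 0 0 (by norm_num) (by
    norm_num
    linarith)
  obtain ⟨b, hb⟩ : ∃ b : ℝ, b = 2 * Real.pi * a := ⟨_, rfl⟩
  have hb0 : 0 ≤ b := by rw [hb]; positivity
  have hb2 : b ≤ 2 * Real.pi := by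
    rw [hb]
    have : 2 * Real.pi * a ≤ 2 * Real.pi * 1 := mul_le_mul_of_nonneg_left ha1 (by positivity)
    linarith
  have hpq := pi_sq10
  have hpi4 := Real.pi_lt_d2
  have hbs : b ^ 2 ≤ 40 := by
    have : b ^ 2 ≤ (2 * Real.pi) ^ 2 := pow_le_pow_left₀ hb0 hb2 2
    nlinarith
  have L1 : ∀ᶠ T in atTop, ∀ u ∈ Finset.Icc 1 m,
      EX T ((BB K m T).indicator fun t => Real.exp (σ * b * ZZ K m u 0 T t + 0 * ZZ K m u 0 T t)) ≤
        (1 + 3 * η) * Real.exp (a ^ 2 * Real.log m) := by
    rw [Filter.eventually_all_finset]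
    intro u hu
    have hV0 := h.V0up
    have hV00 : 0 ≤ V0 K m := Vr_nonneg _
    have hσ1 : |σ| = 1 := by
      have : |σ| ^ 2 = 1 := by rw [sq_abs, hσ]
      nlinarith [abs_nonneg σ]
    have eVV : Vr (Gp (s1 m) (rp K m)) = V0 K m := rfl
    have L := lapA h hη0 hη3 hu (Nat.zero_le (K - 4)) (σ * b) 0 (by
      rw [abs_mul σ, hσ1, abs_of_nonneg hb0, abs_zero]
      linarith) (by
      rw [eVV]
      have e : (σ * b) ^ 2 = b ^ 2 := by rw [mul_pow, hσ]; ring
      rw [e]
      nlinarith)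
    have eL1 : ((σ * b) ^ 2 * Vr (Gp (s1 m) (rp K m)) + 2 * (σ * b) * 0 *
        Cv (Sh u (Gp (s1 m) (rp K m))) (Sh u (Gp (lv K m 0) (rp K m))) + 0 ^ 2 * Vr (Gp (lv K m 0) (rp K m))) / 2 =
        b ^ 2 / 2 * V0 K m := by
      rw [eVV, mul_pow, hσ]
      ring
    rw [eL1] at L
    filter_upwards [L] with T hT
    refine hT.2.trans ?_
    apply mul_le_mul_of_nonneg_left (Real.exp_le_exp.2 _) (by linarith)
    have h1 := h.Vlog (j := 0) (Nat.zero_le _)
    rw [lv_zero] at h1
    have h2 := mul_le_mul_of_nonneg_left h1 (show 0 ≤ b ^ 2 / 2 by positivity)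
    refine h2.trans (le_of_eq ?_)
    rw [hb]
    field_simp
  filter_upwards [L0, L1, eventually_ge_atTop 1] with T t0 t1 hT1
  have hT : 0 < T := by linarith
  have hBm := BB_meas K m T
  -- the complement of the bulk
  have hBc : Pb T (BB K m T)ᶜ ≤ 3 * η := by
    have h1 := t0.1
    simp only [zero_mul, add_zero, Real.exp_zero] at h1
    norm_num at h1
    rw [EX_ind hBm] at h1
    have h2 := Pb_compl hT1 hBm
    linarith
  obtain ⟨x, hx⟩ : ∃ x : ℝ, x = a / Real.pi * Real.log m := ⟨_, rfl⟩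
  rw [← hx]
  obtain ⟨F, hF⟩ : ∃ F : ℝ → ℝ, F = fun t => ∑ u ∈ Finset.Icc 1 m, Real.exp (-(b * x)) *
    (BB K m T).indicator (fun t => Real.exp (σ * b * ZZ K m u 0 T t + 0 * ZZ K m u 0 T t)) t := ⟨_, rfl⟩
  have nI : ∀ u ∈ Finset.Icc 1 m, Nc T (fun t => Real.exp (-(b * x)) *
    (BB K m T).indicator (fun t => Real.exp (σ * b * ZZ K m u 0 T t + 0 * ZZ K m u 0 T t)) t) := by
    intro u _
    have z := ZZ_cont K m u 0 T
    exact ((Nc.of_cont (by fun_prop)).ind hBm).cmul _
  have nF : Nc T F := by rw [hF]; exact Nc.sum _ nI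
  have hEF : EX T F ≤ 2 * Real.exp ((1 - a ^ 2) * Real.log m) := by
    rw [hF, EX_sum _ nI]
    have h1 : ∀ u ∈ Finset.Icc 1 m, EX T (fun t => Real.exp (-(b * x)) *
        (BB K m T).indicator (fun t => Real.exp (σ * b * ZZ K m u 0 T t + 0 * ZZ K m u 0 T t)) t) ≤
        2 * Real.exp (-(a ^ 2 * Real.log m)) := by
      intro u hu
      rw [EX_cmul]
      have h2 := mul_le_mul_of_nonneg_left (t1 u hu) (Real.exp_pos (-(b * x))).le
      refine h2.trans ?_
      have e1 : Real.exp (-(b * x)) * ((1 + 3 * η) * Real.exp (a ^ 2 * Real.log m)) =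
          (1 + 3 * η) * Real.exp (-(a ^ 2 * Real.log m)) := by
        have : Real.exp (-(a ^ 2 * Real.log m)) = Real.exp (-(b * x)) * Real.exp (a ^ 2 * Real.log m) := by
          rw [← Real.exp_add]
          congr 1
          rw [hx, hb]
          field_simp
          ring
        rw [this]
        ring
      rw [e1]
      exact mul_le_mul_of_nonneg_right (by linarith) (Real.exp_pos _).le
    refine (Finset.sum_le_sum h1).trans ?_
    rw [Finset.sum_const, Nat.card_Icc, Nat.add_sub_cancel, nsmul_eq_mul]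
    refine le_of_eq ?_
    have : Real.exp ((1 - a ^ 2) * Real.log m) = m * Real.exp (-(a ^ 2 * Real.log m)) := by
      rw [sub_mul, one_mul, sub_eq_add_neg, Real.exp_add, h.explog]
    rw [this]
    ring
  have hM := Pb_markov hT nF (fun t _ => by
    rw [hF]
    exact Finset.sum_nonneg fun u _ => mul_nonneg (Real.exp_pos _).le
      (indicator_nonneg (fun _ _ => (Real.exp_pos _).le) _))
    (Real.exp_pos ((1 - a ^ 2 + e) * Real.log m))
  have hcov : Pb T {t | Real.exp ((1 - a ^ 2 + e) * Real.log m) ≤ (cZ K m σ x T t : ℝ)} ≤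
      Pb T ((BB K m T)ᶜ ∪ {t | Real.exp ((1 - a ^ 2 + e) * Real.log m) ≤ F t}) := by
    apply Pb_mono hT
    intro t _ ht
    have ht' : Real.exp ((1 - a ^ 2 + e) * Real.log m) ≤ (cZ K m σ x T t : ℝ) := ht
    by_cases htB : t ∈ BB K m T
    · right
      show Real.exp ((1 - a ^ 2 + e) * Real.log m) ≤ F t
      refine ht'.trans ?_
      rw [hF]
      unfold cZ
      rw [Finset.card_filter, Nat.cast_sum]
      apply Finset.sum_le_sum
      intro u _
      rw [indicator_of_mem htB]
      by_cases hu : x ≤ σ * ZZ K m u 0 T t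
      · rw [if_pos hu, Nat.cast_one, ← Real.exp_add]
        apply Real.one_le_exp
        have := mul_le_mul_of_nonneg_left hu hb0
        linarith
      · rw [if_neg hu, Nat.cast_zero]
        positivity
    · left
      exact htB
  refine hcov.trans ((Pb_union hT _ _).trans ?_)
  have h3 : EX T F / Real.exp ((1 - a ^ 2 + e) * Real.log m) ≤ η := by
    rw [div_le_iff₀ (Real.exp_pos _)]
    refine hEF.trans ?_
    have e5 : Real.exp ((1 - a ^ 2) * Real.log m) = Real.exp (-(e * Real.log m)) *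
        Real.exp ((1 - a ^ 2 + e) * Real.log m) := by
      rw [← Real.exp_add]
      congr 1
      ring
    rw [e5, ← mul_assoc]
    exact mul_le_mul_of_nonneg_right g1 (Real.exp_pos _).le
  linarith

open Classical in
/-- the number of `v` at which the discrepancy is high -/
def cD (m : ℕ) (σ x T t : ℝ) : ℕ := ((Finset.Icc 1 m).filter fun v : ℕ => x ≤ σ * DD T t v).card

lemma cD_le (m : ℕ) (σ x T t : ℝ) : cD m σ x T t ≤ m := by
  classical
  unfold cD
  refine (Finset.card_filter_le _ _).trans ?_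
  rw [Nat.card_Icc, Nat.add_sub_cancel]

/-- the good points: the spectrum of the discrepancies -/
def Gd (ε : ℝ) (m : ℕ) (T : ℝ) : Set ℝ :=
  {t | ∀ σ : ℝ, σ ^ 2 = 1 → ∀ a : ℝ, 0 ≤ a → a ≤ 1 - ε →
    Real.exp ((1 - a ^ 2 - ε) * Real.log m) ≤ cD m σ (a / Real.pi * Real.log m) T t ∧
    (cD m σ (a / Real.pi * Real.log m) T t : ℝ) ≤ Real.exp ((1 - a ^ 2 + ε) * Real.log m)}

lemma sq_one {σ : ℝ} (hσ : σ ^ 2 = 1) : σ = 1 ∨ σ = -1 := sq_eq_one_iff_of_ne_zero_or hσ
where
  sq_eq_one_iff_of_ne_zero_or {σ : ℝ} (h : σ ^ 2 = 1) : σ = 1 ∨ σ = -1 := by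
    have : (σ - 1) * (σ + 1) = 0 := by nlinarith
    rcases mul_eq_zero.1 this with h1 | h1
    · left; linarith
    · right; linarith

/-- **from a uniform point** -/
theorem contd (RH : RiemannHypothesis) {ε δ : ℝ} (hε : 0 < ε) (hε1 : ε ≤ 1) (hδ : 0 < δ) :
    ∀ᶠ m : ℕ in atTop, ∀ᶠ T in atTop, Pb T (Gd ε m T)ᶜ ≤ δ := by
  classical
  have hpi := Real.pi_pos
  have hpi3 := Real.pi_gt_three
  have hpi4 := Real.pi_lt_d2
  obtain ⟨n, hn⟩ := exists_nat_ge (16 / ε)
  have hn16 : (16 : ℝ) ≤ n := by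
    refine le_trans ?_ hn
    rw [le_div_iff₀ hε]
    linarith
  have hn0 : (0 : ℝ) < n := by linarith
  obtain ⟨e, he⟩ : ∃ e : ℝ, e = 1 / n := ⟨_, rfl⟩
  have he0 : 0 < e := by rw [he]; positivity
  have hee : 16 * e ≤ ε := by
    rw [he, mul_one_div, div_le_iff₀ hn0]
    rw [div_le_iff₀ hε] at hn
    linarith
  have hne : (n : ℝ) * e = 1 := by rw [he]; field_simp
  obtain ⟨K0, hK0, hap⟩ := approx RH (e / 4) (by positivity)
  obtain ⟨K1, hK1⟩ := exists_nat_ge (16 / e)
  obtain ⟨K, hK⟩ : ∃ K : ℕ, K = max K0 K1 := ⟨_, rfl⟩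
  have hKK0 : K0 ≤ K := by rw [hK]; exact le_max_left _ _
  have hKK1 : K1 ≤ K := by rw [hK]; exact le_max_right _ _
  have hK8 : 8 ≤ K := hK0.trans hKK0
  have hKe : 16 / (K : ℝ) ≤ e := by
    have h1 : (K1 : ℝ) ≤ K := by exact_mod_cast hKK1
    have h2 : 16 / e ≤ K := by linarith
    have hK0' : (0 : ℝ) < K := by
      have : (8 : ℝ) ≤ K := by exact_mod_cast hK8
      linarith
    rw [div_le_iff₀ he0] at h2
    rw [div_le_iff₀ hK0']
    linarith
  obtain ⟨I, hI⟩ : ∃ I : Finset ℕ, I = Finset.range (n + 1) := ⟨_, rfl⟩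
  obtain ⟨S, hS⟩ : ∃ S : Finset ℝ, S = {1, -1} := ⟨_, rfl⟩
  have hS1 : ∀ σ ∈ S, σ ^ 2 = 1 := by
    intro σ h
    rw [hS, Finset.mem_insert, Finset.mem_singleton] at h
    rcases h with h | h <;> rw [h] <;> norm_num
  have hS2 : ∀ σ : ℝ, σ ^ 2 = 1 → σ ∈ S := by
    intro σ h
    rw [hS, Finset.mem_insert, Finset.mem_singleton]
    exact sq_one h
  obtain ⟨d, hd⟩ : ∃ d : ℝ, d = δ / (16 * (n + 1)) := ⟨_, rfl⟩
  have hd0 : 0 < d := by rw [hd]; positivity
  have hiI : ∀ i ∈ I, (i : ℝ) * e ≤ 1 := by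
    intro i hi
    rw [hI, Finset.mem_range] at hi
    have : (i : ℝ) ≤ n := by exact_mod_cast Nat.lt_succ_iff.1 hi
    calc (i : ℝ) * e ≤ n * e := mul_le_mul_of_nonneg_right this he0.le
      _ = 1 := hne
  have hev : ∀ᶠ m : ℕ in atTop, ∀ p ∈ I ×ˢ S, ∀ᶠ T in atTop,
      (p.1 * e + e ≤ 1 → Pb T {t | (cZ K m p.2 (p.1 * e / Real.pi * Real.log m) T t : ℝ) <
        Real.exp ((1 - (p.1 * e + e) ^ 2 - e) * Real.log m)} ≤ d) ∧
      Pb T {t | Real.exp ((1 - (p.1 * e) ^ 2 + e) * Real.log m) ≤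
        (cZ K m p.2 (p.1 * e / Real.pi * Real.log m) T t : ℝ)} ≤ d := by
    rw [Filter.eventually_all_finset]
    rintro ⟨i, σ⟩ hp
    rw [Finset.mem_product] at hp
    have hσ := hS1 σ hp.2
    have hi1 := hiI i hp.1
    have h2 := Zcu K hK8 (a := i * e) (e := e) hσ (by positivity) hi1 he0 hd0
    by_cases hie : (i : ℝ) * e + e ≤ 1
    · have h1 := Zcl K hK8 (a := i * e) (e := e) hσ (by positivity) he0 hie hKe hd0
      filter_upwards [h1, h2] with m k1 k2
      filter_upwards [k1, k2] with T l1 l2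
      exact ⟨fun _ => l1, l2⟩
    · filter_upwards [h2] with m k2
      filter_upwards [k2] with T l2
      exact ⟨fun h => absurd h hie, l2⟩
  filter_upwards [hap K hKK0 (δ / 4) (by positivity), hev, log_tendsto.eventually_ge_atTop 1,
    eventually_ge_atTop 3] with m g1 g2 hl hm3
  have hm0 : (0 : ℝ) < m := by
    have : (3 : ℝ) ≤ m := by exact_mod_cast hm3
    linarith
  have g2' := (Filter.eventually_all_finset (I ×ˢ S)).2 g2
  filter_upwards [g1, g2', eventually_ge_atTop 1] with T t1 t2 hT1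
  have hT : 0 < T := by linarith
  obtain ⟨l, hl'⟩ : ∃ l : ℝ, l = Real.log m := ⟨_, rfl⟩
  rw [← hl'] at hl
  have hml : (m : ℝ) = Real.exp l := by rw [hl', Real.exp_log hm0]
  -- the bad sets
  obtain ⟨Bd, hBd⟩ : ∃ Bd : ℕ × ℝ → Set ℝ, Bd = fun p =>
      (if p.1 * e + e ≤ 1 then {t | (cZ K m p.2 (p.1 * e / Real.pi * Real.log m) T t : ℝ) <
        Real.exp ((1 - (p.1 * e + e) ^ 2 - e) * Real.log m)} else ∅) ∪
      {t | Real.exp ((1 - (p.1 * e) ^ 2 + e) * Real.log m) ≤
        (cZ K m p.2 (p.1 * e / Real.pi * Real.log m) T t : ℝ)} := ⟨_, rfl⟩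
  have hBdp : ∀ p ∈ I ×ˢ S, Pb T (Bd p) ≤ 2 * d := by
    intro p hp
    obtain ⟨k1, k2⟩ := t2 p hp
    rw [hBd]
    refine (Pb_union hT _ _).trans ?_
    have k3 : Pb T (if p.1 * e + e ≤ 1 then {t | (cZ K m p.2 (p.1 * e / Real.pi * Real.log m) T t : ℝ) <
        Real.exp ((1 - (p.1 * e + e) ^ 2 - e) * Real.log m)} else ∅) ≤ d := by
      split_ifs with h
      · exact k1 h
      · refine le_trans (le_of_eq ?_) hd0.le
        unfold Pb
        rw [empty_inter, measureReal_empty, zero_div]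
    linarith
  have hsum : Pb T {t | ∃ p ∈ I ×ˢ S, t ∈ Bd p} ≤ δ / 4 := by
    refine (Pb_biUnion hT _ _).trans ((Finset.sum_le_sum hBdp).trans ?_)
    rw [Finset.sum_const, nsmul_eq_mul, Finset.card_product]
    have hcS : S.card ≤ 2 := by rw [hS]; exact Finset.card_le_two
    have hcI : I.card = n + 1 := by rw [hI, Finset.card_range]
    have h1 : ((I.card * S.card : ℕ) : ℝ) ≤ (n + 1) * 2 := by
      rw [hcI]
      have : (n + 1) * S.card ≤ (n + 1) * 2 := Nat.mul_le_mul_left _ hcS
      exact_mod_cast this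
    calc ((I.card * S.card : ℕ) : ℝ) * (2 * d) ≤ ((n + 1) * 2) * (2 * d) :=
          mul_le_mul_of_nonneg_right h1 (by positivity)
      _ = δ / 4 := by
          rw [hd]
          field_simp
          norm_num
  have hcov : Pb T (Gd ε m T)ᶜ ≤ Pb T ({t | ∃ v ∈ Finset.Icc 1 m, e / 4 * Real.log m < |DD T t v - ZZ K m v 0 T t|} ∪
      {t | ∃ p ∈ I ×ˢ S, t ∈ Bd p}) := by
    apply Pb_mono hT
    intro t _ ht
    by_contra hcon
    apply ht
    simp only [mem_union, mem_ofPred_eq, not_or, not_exists, not_and, not_lt] at hcon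
    obtain ⟨k1, k2⟩ := hcon
    intro σ hσ a ha0 ha1
    rw [← hl'] at k1
    have hσa : ∀ x : ℝ, |σ * x| = |x| := by
      intro x
      rcases sq_one hσ with h | h <;> rw [h] <;> simp
    have hb : ∀ i ∈ I, (i * e + e ≤ 1 → Real.exp ((1 - (i * e + e) ^ 2 - e) * l) ≤
        (cZ K m σ (i * e / Real.pi * l) T t : ℝ)) ∧
        (cZ K m σ (i * e / Real.pi * l) T t : ℝ) < Real.exp ((1 - (i * e) ^ 2 + e) * l) := by
      intro i hi
      have h1 := k2 (i, σ) (Finset.mem_product.2 ⟨hi, hS2 σ hσ⟩)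
      rw [hBd] at h1
      simp only [mem_union, mem_ofPred_eq, not_or, not_le] at h1
      rw [hl']
      refine ⟨fun h => ?_, h1.2⟩
      have h2 := h1.1
      rw [if_pos h] at h2
      simpa only [mem_ofPred_eq, not_lt] using h2
    rw [← hl']
    constructor
    · -- many
      obtain ⟨i, hi⟩ : ∃ i : ℕ, i = ⌈(a + e) * n⌉₊ := ⟨_, rfl⟩
      have i1 : (a + e) * n ≤ i := by rw [hi]; exact Nat.le_ceil _
      have i2 : (i : ℝ) < (a + e) * n + 1 := by rw [hi]; exact Nat.ceil_lt_add_one (by positivity)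
      have i3 : a + e ≤ i * e := by
        have := mul_le_mul_of_nonneg_right i1 he0.le
        rwa [mul_assoc, hne, mul_one] at this
      have i4 : (i : ℝ) * e ≤ a + 2 * e := by
        have := mul_le_mul_of_nonneg_right i2.le he0.le
        rw [add_mul, mul_assoc, hne, mul_one] at this
        linarith
      have iI : i ∈ I := by
        rw [hI, Finset.mem_range]
        have h1 : (i : ℝ) * e ≤ 1 := by linarith
        have h2 : (i : ℝ) ≤ n := by
          have h3 : (i : ℝ) * e ≤ n * e := by rw [hne]; exact h1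
          exact le_of_mul_le_mul_right h3 he0
        have : i ≤ n := by exact_mod_cast h2
        omega
      have h1 := (hb i iI).1 (by linarith)
      have h2 : (cZ K m σ (i * e / Real.pi * l) T t : ℝ) ≤ cD m σ (a / Real.pi * l) T t := by
        have h3 : cZ K m σ (i * e / Real.pi * l) T t ≤ cD m σ (a / Real.pi * l) T t := by
          unfold cZ cD
          apply Finset.card_le_card
          intro v hv
          rw [Finset.mem_filter] at hv ⊢
          refine ⟨hv.1, ?_⟩
          have h4 := k1 v hv.1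
          have h5 : σ * ZZ K m v 0 T t - e / 4 * l ≤ σ * DD T t v := by
            have h6 : |σ * (DD T t v - ZZ K m v 0 T t)| ≤ e / 4 * l := by rw [hσa]; exact h4
            have h7 := (abs_le.1 h6).1
            linarith
          have h8 : a / Real.pi * l + e / 4 * l ≤ i * e / Real.pi * l := by
            have h9 : a / Real.pi + e / 4 ≤ i * e / Real.pi := by
              have h10 : (a + e) / Real.pi ≤ i * e / Real.pi := div_le_div_of_nonneg_right i3 hpi.le
              have h11 : e / 4 ≤ e / Real.pi := div_le_div_of_nonneg_left he0.le hpi (by linarith)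
              rw [add_div] at h10
              linarith
            have := mul_le_mul_of_nonneg_right h9 (by linarith : (0 : ℝ) ≤ l)
            linarith
          linarith [hv.2]
        exact_mod_cast h3
      refine le_trans (Real.exp_le_exp.2 ?_) (h1.trans h2)
      apply mul_le_mul_of_nonneg_right _ (by linarith)
      have h5 : (i * e + e) ^ 2 ≤ (a + 3 * e) ^ 2 := pow_le_pow_left₀ (by positivity) (by linarith) 2
      nlinarith
    · -- not too many
      rcases lt_or_ge a e with hae | hae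
      · have h1 : (cD m σ (a / Real.pi * l) T t : ℝ) ≤ m := by exact_mod_cast cD_le _ _ _ _ _
        refine h1.trans ?_
        rw [hml]
        apply Real.exp_le_exp.2
        have q1 : a * a ≤ e * 1 := mul_le_mul hae.le (by linarith) ha0 he0.le
        have q2 : 1 ≤ 1 - a ^ 2 + ε := by
          rw [sq]
          linarith
        have q3 := mul_le_mul_of_nonneg_right q2 (by linarith : (0 : ℝ) ≤ l)
        linarith
      · obtain ⟨i, hi⟩ : ∃ i : ℕ, i = ⌊(a - e) * n⌋₊ := ⟨_, rfl⟩
        have i0 : 0 ≤ (a - e) * n := mul_nonneg (by linarith) hn0.le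
        have i1 : (i : ℝ) ≤ (a - e) * n := by rw [hi]; exact Nat.floor_le i0
        have i2 : (a - e) * n < i + 1 := by rw [hi]; exact Nat.lt_floor_add_one _
        have i3 : (i : ℝ) * e ≤ a - e := by
          have := mul_le_mul_of_nonneg_right i1 he0.le
          rwa [mul_assoc, hne, mul_one] at this
        have i4 : a - 2 * e ≤ i * e := by
          have := mul_le_mul_of_nonneg_right i2.le he0.le
          rw [add_mul, mul_assoc, hne, mul_one, one_mul] at this
          linarith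
        have iI : i ∈ I := by
          rw [hI, Finset.mem_range]
          have h1 : (i : ℝ) * e ≤ 1 := by linarith
          have h2 : (i : ℝ) ≤ n := by
            have h3 : (i : ℝ) * e ≤ n * e := by rw [hne]; exact h1
            exact le_of_mul_le_mul_right h3 he0
          have : i ≤ n := by exact_mod_cast h2
          omega
        have h1 := (hb i iI).2
        have h2 : (cD m σ (a / Real.pi * l) T t : ℝ) ≤ cZ K m σ (i * e / Real.pi * l) T t := by
          have h3 : cD m σ (a / Real.pi * l) T t ≤ cZ K m σ (i * e / Real.pi * l) T t := by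
            unfold cZ cD
            apply Finset.card_le_card
            intro v hv
            rw [Finset.mem_filter] at hv ⊢
            refine ⟨hv.1, ?_⟩
            have h4 := k1 v hv.1
            have h5 : σ * DD T t v - e / 4 * l ≤ σ * ZZ K m v 0 T t := by
              have h6 : |σ * (DD T t v - ZZ K m v 0 T t)| ≤ e / 4 * l := by rw [hσa]; exact h4
              have h7 := (abs_le.1 h6).2
              linarith
            have h8 : i * e / Real.pi * l ≤ a / Real.pi * l - e / 4 * l := by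
              have h9 : i * e / Real.pi ≤ a / Real.pi - e / 4 := by
                have h10 : i * e / Real.pi ≤ (a - e) / Real.pi := div_le_div_of_nonneg_right i3 hpi.le
                have h11 : e / 4 ≤ e / Real.pi := div_le_div_of_nonneg_left he0.le hpi (by linarith)
                rw [sub_div] at h10
                linarith
              have := mul_le_mul_of_nonneg_right h9 (by linarith : (0 : ℝ) ≤ l)
              linarith
            linarith [hv.2]
          exact_mod_cast h3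
        refine (h2.trans h1.le).trans (Real.exp_le_exp.2 ?_)
        apply mul_le_mul_of_nonneg_right _ (by linarith)
        have h5 : a ^ 2 - 4 * e ≤ (i * e) ^ 2 := by
          have i5 : 0 ≤ (i : ℝ) * e := by positivity
          rcases le_or_gt (a - 2 * e) 0 with h6 | h6
          · nlinarith
          · have h7 : (a - 2 * e) ^ 2 ≤ (i * e) ^ 2 := pow_le_pow_left₀ h6.le i4 2
            nlinarith
        linarith
  refine hcov.trans ((Pb_union hT _ _).trans ?_)
  linarith

end

end Pool.Agent.K6.H15.TP
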