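import Mathlib

/-! # Thick points: from the spectrum to the free energy (deterministic) -/

set_option autoImplicit false

open Set Filter Topology

namespace Pool.Agent.K6.H15.TP

noncomputable section

/-- the limit of the free energy, `b = β / 2π` -/
def Fb (b : ℝ) : ℝ := if b ≤ 1 then 1 + b ^ 2 else 2 * b

lemma one_le_Fb (b : ℝ) : 1 ≤ Fb b := by
  unfold Fb
  split_ifs with h
  · nlinarith [sq_nonneg b]
  · linarith

lemma Fb_ge {a b e : ℝ} (he : 0 ≤ e) (hb : 0 ≤ b) (ha0 : 0 ≤ a) (ha : a ≤ 1 + e) :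
    1 - a ^ 2 + 2 * a * b ≤ Fb b + 2 * b * e := by
  unfold Fb
  have hbe : 0 ≤ b * e := mul_nonneg hb he
  split_ifs with h
  · nlinarith [sq_nonneg (a - b)]
  · push Not at h
    rcases le_or_gt a 1 with h1 | h1
    · nlinarith [mul_nonneg (sub_nonneg.2 h1) (sub_nonneg.2 h.le)]
    · have : 2 * a * b ≤ 2 * (1 + e) * b := by nlinarith
      nlinarith

lemma Fb_le {b e : ℝ} (he : 0 ≤ e) (he1 : e ≤ 1) (hb : 0 ≤ b) :
    ∃ a : ℝ, 0 ≤ a ∧ a ≤ 1 - e ∧ Fb b - 2 * b * e - e ≤ 1 - a ^ 2 + 2 * a * b := by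
  have hbe : 0 ≤ b * e := mul_nonneg hb he
  rcases le_or_gt b (1 - e) with h | h
  · refine ⟨b, hb, h, ?_⟩
    unfold Fb
    rw [if_pos (by linarith)]
    nlinarith
  · refine ⟨1 - e, by linarith, le_rfl, ?_⟩
    unfold Fb
    split_ifs with h1
    · nlinarith [mul_nonneg (sub_nonneg.2 h1) (sub_nonneg.2 h.le)]
    · nlinarith [mul_nonneg he (sub_nonneg.2 he1)]

/-- upper bound for the partition function -/
lemma fe_up {S : Finset ℕ} {x : ℕ → ℝ} {l e b : ℝ} {M : ℕ} (hl : 0 < l) (he : 0 < e) (he1 : e ≤ 1)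
    (hM : 1 ≤ M) (hb : 0 ≤ b) (hS : (S.card : ℝ) ≤ Real.exp l)
    (hc : ∀ a : ℝ, 0 ≤ a →
      ((S.filter fun r => a / Real.pi * l ≤ x r).card : ℝ) ≤ Real.exp ((1 - a ^ 2 + e) * l)) :
    ∑ r ∈ S, Real.exp (2 * Real.pi * b * x r) ≤
      (2 * M + 1) * Real.exp ((Fb b + 2 * b * e + e + 2 * b / M) * l) := by
  classical
  have hpi := Real.pi_pos
  have hM0 : (0 : ℝ) < M := by exact_mod_cast hM
  have hzero : ∀ a : ℝ, 0 ≤ a → 1 + e < a ^ 2 → ∀ r ∈ S, x r < a / Real.pi * l := by
    intro a ha0 ha r hr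
    by_contra hcon
    push Not at hcon
    have h1 := hc a ha0
    have h2 : 1 ≤ (S.filter fun r => a / Real.pi * l ≤ x r).card :=
      Finset.card_pos.2 ⟨r, Finset.mem_filter.2 ⟨hr, hcon⟩⟩
    have h3 : (1 : ℝ) ≤ ((S.filter fun r => a / Real.pi * l ≤ x r).card : ℝ) := by exact_mod_cast h2
    have h4 : Real.exp ((1 - a ^ 2 + e) * l) < 1 := by
      rw [Real.exp_lt_one_iff]
      apply mul_neg_of_neg_of_pos _ hl
      linarith
    linarith
  obtain ⟨E, hE⟩ : ∃ E : ℕ → ℝ, E = fun k : ℕ => Real.exp (2 * b * ((k + 1) / M) * l) := ⟨_, rfl⟩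
  have hE0 : ∀ k, 0 < E k := fun k => by rw [hE]; exact Real.exp_pos _
  have hpt : ∀ r ∈ S, Real.exp (2 * Real.pi * b * x r) ≤
      1 + ∑ k ∈ Finset.range (2 * M), if ((k : ℝ) / M) / Real.pi * l ≤ x r then E k else 0 := by
    intro r hr
    have hnn : 0 ≤ ∑ k ∈ Finset.range (2 * M), if ((k : ℝ) / M) / Real.pi * l ≤ x r then E k else 0 := by
      apply Finset.sum_nonneg
      intro k _
      split_ifs
      · exact (hE0 k).le
      · exact le_rfl
    rcases lt_or_ge (x r) 0 with h | h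
    · have h1 : Real.exp (2 * Real.pi * b * x r) ≤ 1 := by
        rw [Real.exp_le_one_iff]
        exact mul_nonpos_of_nonneg_of_nonpos (by positivity) h.le
      linarith
    · have h1' : x r < 2 / Real.pi * l := hzero 2 (by norm_num) (by linarith) r hr
      obtain ⟨k, hk⟩ : ∃ k : ℕ, k = ⌊x r * Real.pi * M / l⌋₊ := ⟨_, rfl⟩
      have hq : 0 ≤ x r * Real.pi * M / l := by positivity
      have hk1 : (k : ℝ) ≤ x r * Real.pi * M / l := by rw [hk]; exact Nat.floor_le hq
      have hk2 : x r * Real.pi * M / l < k + 1 := by rw [hk]; exact Nat.lt_floor_add_one _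
      have hkM : k < 2 * M := by
        rw [hk, Nat.floor_lt hq]
        push_cast
        rw [div_lt_iff₀ hl]
        have := mul_lt_mul_of_pos_right h1' (mul_pos hpi hM0)
        have e1 : 2 / Real.pi * l * (Real.pi * M) = 2 * M * l := by field_simp
        linarith
      have hkl : ((k : ℝ) / M) / Real.pi * l ≤ x r := by
        rw [le_div_iff₀ hl] at hk1
        rw [div_div, div_mul_eq_mul_div, div_le_iff₀ (mul_pos hM0 hpi)]
        linarith
      have h2 : E k ≤ ∑ k ∈ Finset.range (2 * M), if ((k : ℝ) / M) / Real.pi * l ≤ x r then E k else 0 := by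
        have h3 := Finset.single_le_sum (f := fun k : ℕ =>
          if ((k : ℝ) / M) / Real.pi * l ≤ x r then E k else 0) (fun k _ => by
            show 0 ≤ _
            split_ifs
            · exact (hE0 k).le
            · exact le_rfl) (Finset.mem_range.2 hkM)
        simp only [if_pos hkl] at h3
        exact h3
      have h3 : Real.exp (2 * Real.pi * b * x r) ≤ E k := by
        rw [hE]
        apply Real.exp_le_exp.2
        rw [div_lt_iff₀ hl] at hk2
        have h4 : x r * Real.pi ≤ (k + 1) / M * l := by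
          rw [div_mul_eq_mul_div, le_div_iff₀ hM0]
          exact hk2.le
        have h5 := mul_le_mul_of_nonneg_left h4 (show 0 ≤ 2 * b by linarith)
        linarith
      linarith
  have hbd : ∀ k ∈ Finset.range (2 * M), ∑ r ∈ S, (if ((k : ℝ) / M) / Real.pi * l ≤ x r then E k else 0) ≤
      Real.exp ((Fb b + 2 * b * e + e + 2 * b / M) * l) := by
    intro k _
    rw [← Finset.sum_filter, Finset.sum_const, nsmul_eq_mul]
    have ha0 : (0 : ℝ) ≤ (k : ℝ) / M := by positivity
    rcases le_or_gt ((k : ℝ) / M) (1 + e) with h | h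
    · have h1 := hc _ ha0
      have h2 := Fb_ge he.le hb ha0 h
      calc ((S.filter fun r => ((k : ℝ) / M) / Real.pi * l ≤ x r).card : ℝ) * E k ≤
          Real.exp ((1 - ((k : ℝ) / M) ^ 2 + e) * l) * E k := mul_le_mul_of_nonneg_right h1 (hE0 k).le
        _ = Real.exp ((1 - ((k : ℝ) / M) ^ 2 + 2 * ((k : ℝ) / M) * b + e + 2 * b / M) * l) := by
            rw [hE]
            simp only
            rw [← Real.exp_add]
            congr 1
            ring
        _ ≤ _ := by
            apply Real.exp_le_exp.2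
            apply mul_le_mul_of_nonneg_right _ hl.le
            linarith
    · have h1 : (S.filter fun r => ((k : ℝ) / M) / Real.pi * l ≤ x r) = ∅ := by
        rw [Finset.filter_eq_empty_iff]
        intro r hr
        exact not_le.2 (hzero _ ha0 (by nlinarith) r hr)
      rw [h1, Finset.card_empty, Nat.cast_zero, zero_mul]
      exact (Real.exp_pos _).le
  calc ∑ r ∈ S, Real.exp (2 * Real.pi * b * x r) ≤
      ∑ r ∈ S, (1 + ∑ k ∈ Finset.range (2 * M), if ((k : ℝ) / M) / Real.pi * l ≤ x r then E k else 0) :=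
        Finset.sum_le_sum hpt
    _ = S.card + ∑ k ∈ Finset.range (2 * M), ∑ r ∈ S,
          (if ((k : ℝ) / M) / Real.pi * l ≤ x r then E k else 0) := by
        rw [Finset.sum_add_distrib, Finset.sum_const, nsmul_eq_mul, mul_one, Finset.sum_comm]
    _ ≤ Real.exp l + ∑ _k ∈ Finset.range (2 * M), Real.exp ((Fb b + 2 * b * e + e + 2 * b / M) * l) :=
        add_le_add hS (Finset.sum_le_sum hbd)
    _ ≤ _ := by
        rw [Finset.sum_const, Finset.card_range, nsmul_eq_mul]
        have h1 : Real.exp l ≤ Real.exp ((Fb b + 2 * b * e + e + 2 * b / M) * l) := by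
          apply Real.exp_le_exp.2
          have h2 := one_le_Fb b
          have h3 : 0 ≤ b * e := mul_nonneg hb he.le
          have h4 : 0 ≤ 2 * b / M := by positivity
          have h5 : 1 ≤ Fb b + 2 * b * e + e + 2 * b / M := by nlinarith
          nlinarith
        push_cast
        linarith

/-- lower bound for the partition function -/
lemma fe_lo {S : Finset ℕ} {x : ℕ → ℝ} {l e b : ℝ} (hl : 0 < l) (he : 0 < e) (he1 : e ≤ 1) (hb : 0 ≤ b)
    (hc : ∀ a : ℝ, 0 ≤ a → a ≤ 1 - e →
      Real.exp ((1 - a ^ 2 - e) * l) ≤ ((S.filter fun r => a / Real.pi * l ≤ x r).card : ℝ)) :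
    Real.exp ((Fb b - 2 * b * e - 2 * e) * l) ≤ ∑ r ∈ S, Real.exp (2 * Real.pi * b * x r) := by
  classical
  have hpi := Real.pi_pos
  obtain ⟨a, ha0, ha1, ha⟩ := Fb_le he.le he1 hb
  have h1 := hc a ha0 ha1
  have h2 : ∑ r ∈ S.filter (fun r => a / Real.pi * l ≤ x r), Real.exp (2 * a * b * l) ≤
      ∑ r ∈ S.filter (fun r => a / Real.pi * l ≤ x r), Real.exp (2 * Real.pi * b * x r) := by
    apply Finset.sum_le_sum
    intro r hr
    apply Real.exp_le_exp.2
    have h3 := mul_le_mul_of_nonneg_left (Finset.mem_filter.1 hr).2 (show 0 ≤ 2 * Real.pi * b by positivity)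
    have e1 : 2 * Real.pi * b * (a / Real.pi * l) = 2 * a * b * l := by field_simp
    linarith
  have h3 : ∑ r ∈ S.filter (fun r => a / Real.pi * l ≤ x r), Real.exp (2 * Real.pi * b * x r) ≤
      ∑ r ∈ S, Real.exp (2 * Real.pi * b * x r) :=
    Finset.sum_le_sum_of_subset_of_nonneg (Finset.filter_subset _ _) fun _ _ _ => (Real.exp_pos _).le
  rw [Finset.sum_const, nsmul_eq_mul] at h2
  calc Real.exp ((Fb b - 2 * b * e - 2 * e) * l) ≤ Real.exp ((1 - a ^ 2 - e) * l) * Real.exp (2 * a * b * l) := by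
        rw [← Real.exp_add]
        apply Real.exp_le_exp.2
        have := mul_le_mul_of_nonneg_right ha hl.le
        nlinarith
    _ ≤ _ := (mul_le_mul_of_nonneg_right h1 (Real.exp_pos _).le).trans (h2.trans h3)

end

end Pool.Agent.K6.H15.TP
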