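import Pool.Agent.K6.H15.TP.Bf
import Pool.Agent.K6.H15.TP.Fd

/-! # Thick points: the final form -/

set_option autoImplicit false

open MeasureTheory Set Filter Topology

namespace Pool.Agent.K6.H15.TP

open Pool.Agent.K6.H57.ML Pool.Agent.K6.H57.MX
open Pool.Agent.R320.CL (SS dl)

noncomputable section

/-- the good zeros, final form -/
def Gz (ε B : ℝ) (R n : ℕ) : Prop :=
  ∀ σ : ℝ, σ ^ 2 = 1 →
    (∀ a : ℝ, 0 ≤ a → (cS R n σ (a / Real.pi * Real.log R) : ℝ) ≤ Real.exp ((1 - a ^ 2 + ε) * Real.log R)) ∧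
    (∀ a : ℝ, 0 ≤ a → a ≤ 1 - ε →
      Real.exp ((1 - a ^ 2 - ε) * Real.log R) ≤ cS R n σ (a / Real.pi * Real.log R)) ∧
    (∀ b : ℝ, 0 ≤ b → b ≤ B →
      Real.exp ((Fb b - ε) * Real.log R) ≤
        ∑ r ∈ Finset.Icc 1 R, Real.exp (2 * Real.pi * b * (σ * (SS r n - r))) ∧
      ∑ r ∈ Finset.Icc 1 R, Real.exp (2 * Real.pi * b * (σ * (SS r n - r))) ≤
        Real.exp ((Fb b + ε) * Real.log R))

/-- the spectrum above the level `1` -/
lemma ext_up {e : ℝ} (he : 0 < e) (he1 : e ≤ 1 / 16) {R n : ℕ} (hl : 0 < Real.log R) (h1 : Gq e R n)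
    (h2 : Gg e R n) {σ : ℝ} (hσ : σ ^ 2 = 1) {a : ℝ} (ha : 0 ≤ a) :
    (cS R n σ (a / Real.pi * Real.log R) : ℝ) ≤ Real.exp ((1 - a ^ 2 + 12 * e) * Real.log R) := by
  classical
  have hpi := Real.pi_pos
  have hpi4 := Real.pi_lt_d2
  rcases le_or_gt a (1 - e) with h | h
  · refine (h1 σ hσ a ha h).2.trans (Real.exp_le_exp.2 ?_)
    apply mul_le_mul_of_nonneg_right _ hl.le
    linarith
  rcases le_or_gt a (1 + 4 * e) with h' | h'
  · have h3 := (h1 σ hσ (1 - e) (by linarith) le_rfl).2
    have h4 : (cS R n σ (a / Real.pi * Real.log R) : ℝ) ≤ cS R n σ ((1 - e) / Real.pi * Real.log R) := by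
      have : (1 - e) / Real.pi * Real.log R ≤ a / Real.pi * Real.log R := by gcongr
      exact_mod_cast cS_mono R n σ this
    refine h4.trans (h3.trans (Real.exp_le_exp.2 ?_))
    apply mul_le_mul_of_nonneg_right _ hl.le
    nlinarith
  · have h3 : cS R n σ (a / Real.pi * Real.log R) = 0 := by
      unfold cS
      rw [Finset.card_eq_zero, Finset.filter_eq_empty_iff]
      intro r hr hcon
      have h4 := h2.1 r hr
      have h5 : σ * (SS r n - r) ≤ |SS r n - r| := by
        rcases sq_one hσ with h6 | h6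
        · rw [h6, one_mul]; exact le_abs_self _
        · rw [h6, neg_one_mul]; exact neg_le_abs _
      have h6 : (1 + 4 * e) / Real.pi * Real.log R < a / Real.pi * Real.log R := by gcongr
      have h7 : (1 / Real.pi + e) * Real.log R ≤ (1 + 4 * e) / Real.pi * Real.log R := by
        apply mul_le_mul_of_nonneg_right _ hl.le
        rw [add_div]
        have : e ≤ 4 * e / Real.pi := by
          rw [le_div_iff₀ hpi]
          nlinarith
        linarith
      linarith
    rw [h3, Nat.cast_zero]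
    exact (Real.exp_pos _).le

/-- the good zeros, from the two laws -/
lemma Gz_of {ε B e : ℝ} (hB : 0 ≤ B) (he : 0 < e) (he1 : e ≤ 1 / 16) (hε : 26 * (B + 1) * e ≤ ε)
    {R n : ℕ} {M : ℕ} (hM : 1 / e ≤ M) (hR : 1 ≤ R) (hl : 0 < Real.log R)
    (hMl : 2 * (M : ℝ) + 1 ≤ Real.exp (e * Real.log R)) (h1 : Gq e R n) (h2 : Gg e R n) : Gz ε B R n := by
  classical
  have hBe : 0 ≤ B * e := mul_nonneg hB he.le
  have hεe : 26 * e ≤ ε := by nlinarith
  have hM0 : (0 : ℝ) < M := lt_of_lt_of_le (by positivity) hM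
  have hM1 : 1 ≤ M := by exact_mod_cast hM0
  have hMe : 1 / (M : ℝ) ≤ e := by
    rw [div_le_iff₀ he] at hM
    rw [div_le_iff₀ hM0]
    linarith
  intro σ hσ
  refine ⟨fun a ha => ?_, fun a ha ha1 => ?_, fun b hb hbB => ?_⟩
  · refine (ext_up he he1 hl h1 h2 hσ ha).trans (Real.exp_le_exp.2 ?_)
    apply mul_le_mul_of_nonneg_right _ hl.le
    linarith
  · refine le_trans (Real.exp_le_exp.2 ?_) (h1 σ hσ a ha (by linarith)).1
    apply mul_le_mul_of_nonneg_right _ hl.le
    linarith
  · have hbe : b * e ≤ B * e := mul_le_mul_of_nonneg_right hbB he.le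
    have hbe0 : 0 ≤ b * e := mul_nonneg hb he.le
    constructor
    · have h3 := fe_lo (S := Finset.Icc 1 R) (x := fun r => σ * (SS r n - r)) hl he (by linarith) hb
        (fun a ha ha1 => by
          have h4 := (h1 σ hσ a ha ha1).1
          unfold cS at h4
          convert h4 using 3)
      refine le_trans (Real.exp_le_exp.2 ?_) h3
      apply mul_le_mul_of_nonneg_right _ hl.le
      linarith
    · have h3 := fe_up (S := Finset.Icc 1 R) (x := fun r => σ * (SS r n - r)) (e := 12 * e) (M := M) hl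
        (by linarith) (by linarith) hM1 hb (by
          rw [Nat.card_Icc, Nat.add_sub_cancel, Real.exp_log (by exact_mod_cast hR)])
        (fun a ha => by
          have h4 := ext_up he he1 hl h1 h2 hσ ha
          unfold cS at h4
          convert h4 using 3)
      refine h3.trans ?_
      calc (2 * (M : ℝ) + 1) * Real.exp ((Fb b + 2 * b * (12 * e) + 12 * e + 2 * b / M) * Real.log R) ≤
          Real.exp (e * Real.log R) *
            Real.exp ((Fb b + 2 * b * (12 * e) + 12 * e + 2 * b / M) * Real.log R) :=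
            mul_le_mul_of_nonneg_right hMl (Real.exp_pos _).le
        _ = Real.exp ((Fb b + 2 * b * (12 * e) + 12 * e + 2 * b / M + e) * Real.log R) := by
            rw [← Real.exp_add]
            congr 1
            ring
        _ ≤ _ := by
            apply Real.exp_le_exp.2
            apply mul_le_mul_of_nonneg_right _ hl.le
            have h4 : 2 * b / M ≤ 2 * b * e := by
              have := mul_le_mul_of_nonneg_left hMe (show 0 ≤ 2 * b by linarith)
              calc 2 * b / M = 2 * b * (1 / M) := by ring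
                _ ≤ _ := this
            linarith

open Classical in
/-- **all zeros, final form** -/
theorem allf (RH : RiemannHypothesis) {ε B : ℝ} (hε : 0 < ε) (hB : 0 ≤ B) :
    ∀ᶠ R : ℕ in atTop, ∀ᶠ N : ℕ in atTop,
      (((Finset.Icc 1 N).filter fun n => ¬ Gz ε B R n).card : ℝ) ≤ ε * N := by
  obtain ⟨e, he⟩ : ∃ e : ℝ, e = min (ε / (26 * (B + 1))) (1 / 16) := ⟨_, rfl⟩
  have he0 : 0 < e := by rw [he]; positivity
  have he1 : e ≤ 1 / 16 := by rw [he]; exact min_le_right _ _
  have he2 : 26 * (B + 1) * e ≤ ε := by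
    have h1 : e ≤ ε / (26 * (B + 1)) := by rw [he]; exact min_le_left _ _
    rw [le_div_iff₀ (by positivity)] at h1
    linarith
  have hBe : 0 ≤ B * e := mul_nonneg hB he0.le
  obtain ⟨M, hM⟩ := exists_nat_ge (1 / e)
  have hl := log_tendsto
  have hexp : ∀ᶠ R : ℕ in atTop, 2 * (M : ℝ) + 1 ≤ Real.exp (e * Real.log R) :=
    (Real.tendsto_exp_atTop.comp (hl.const_mul_atTop he0)).eventually_ge_atTop _
  filter_upwards [allq RH he0, allZ RH he0, hexp, hl.eventually_gt_atTop 0, eventually_ge_atTop 1]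
    with R h1 h2 h3 h4 h5
  filter_upwards [h1, h2] with N k1 k2
  have h6 : ((Finset.Icc 1 N).filter fun n => ¬ Gz ε B R n) ⊆
      ((Finset.Icc 1 N).filter fun n => ¬ Gq e R n) ∪ ((Finset.Icc 1 N).filter fun n => ¬ Gg e R n) := by
    intro n hn
    rw [Finset.mem_union, Finset.mem_filter, Finset.mem_filter]
    rw [Finset.mem_filter] at hn
    by_contra hcon
    push Not at hcon
    exact hn.2 (Gz_of hB he0 he1 he2 hM h5 h4 h3 (hcon.1 hn.1) (hcon.2 hn.1))
  have h7 := (Finset.card_le_card h6).trans (Finset.card_union_le _ _)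
  have h8 : (((Finset.Icc 1 N).filter fun n => ¬ Gz ε B R n).card : ℝ) ≤
      (((Finset.Icc 1 N).filter fun n => ¬ Gq e R n).card : ℝ) +
        (((Finset.Icc 1 N).filter fun n => ¬ Gg e R n).card : ℝ) := by exact_mod_cast h7
  have hN : (0 : ℝ) ≤ N := Nat.cast_nonneg _
  have h9 : 2 * e * N ≤ ε * N := by
    apply mul_le_mul_of_nonneg_right _ hN
    nlinarith
  linarith

end

end Pool.Agent.K6.H15.TP
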