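import Pool.Agent.K6.H57.MX.Up

/-! # Thick points: the tilted first moment -/

set_option autoImplicit false

open MeasureTheory Set Filter Topology
open scoped ContDiff NNReal

namespace Pool.Agent.K6.H15.TP

open Pool.Agent.K6.H57.ML Pool.Agent.K6.H57.MX

noncomputable section

variable {K m : ℕ} {η : ℝ}

/-- the good set of one point, at the level `b` -/
def Gb (K m : ℕ) (σ ε b : ℝ) (u : ℕ) (T : ℝ) : Set ℝ :=
  {t | (1 - ε) * b * V0 K m ≤ σ * ZZ K m u 0 T t ∧
    ∀ j ∈ Finset.range (K - 3), σ * ZZ K m u j T t ≤ b * Vj K m j + sk K m}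

lemma Gb_meas (K m : ℕ) (σ ε b : ℝ) (u : ℕ) (T : ℝ) : MeasurableSet (Gb K m σ ε b u T) := by
  have : Gb K m σ ε b u T = {t | (1 - ε) * b * V0 K m ≤ σ * ZZ K m u 0 T t} ∩
      ⋂ j ∈ Finset.range (K - 3), {t | σ * ZZ K m u j T t ≤ b * Vj K m j + sk K m} := by
    ext t
    simp [Gb]
  rw [this]
  apply MeasurableSet.inter
  · exact measurableSet_le measurable_const (continuous_const.mul (ZZ_cont K m u 0 T)).measurable
  · exact Finset.measurableSet_biInter _ fun j _ =>
      measurableSet_le (continuous_const.mul (ZZ_cont K m u j T)).measurable measurable_const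

/-- the tilted weight -/
def Wb (K m : ℕ) (σ ε b : ℝ) (u : ℕ) (T : ℝ) : ℝ → ℝ :=
  (BB K m T ∩ Gb K m σ ε b u T).indicator fun t =>
    Real.exp (σ * b * ZZ K m u 0 T t - b ^ 2 / 2 * V0 K m)

lemma Wb_nc (K m : ℕ) (σ ε b : ℝ) (u : ℕ) (T : ℝ) : Nc T (Wb K m σ ε b u T) := by
  have := ZZ_cont K m u 0 T
  exact (Nc.of_cont (by fun_prop)).ind ((BB_meas K m T).inter (Gb_meas K m σ ε b u T))

lemma Wb_nonneg (K m : ℕ) (σ ε b : ℝ) (u : ℕ) (T t : ℝ) : 0 ≤ Wb K m σ ε b u T t := by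
  unfold Wb
  exact indicator_nonneg (fun _ _ => (Real.exp_pos _).le) _

lemma V0nn : 0 ≤ V0 K m := Vr_nonneg _

lemma b_sq {b : ℝ} (hb0 : 0 < b) (hb : b ≤ 2 * Real.pi) : b ^ 2 ≤ 40 := by
  have hpi := Real.pi_pos
  have hpq := pi_sq10
  have : b ^ 2 ≤ (2 * Real.pi) ^ 2 := pow_le_pow_left₀ hb0.le hb 2
  nlinarith

lemma sb_abs {σ b : ℝ} (hσ : σ ^ 2 = 1) (hb0 : 0 < b) (hb : b ≤ 2 * Real.pi) : |σ * b| ≤ 19 / 3 := by
  have hpi4 := Real.pi_lt_d6
  have hσ1 : |σ| = 1 := by
    have : |σ| ^ 2 = 1 := by rw [sq_abs, hσ]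
    nlinarith [abs_nonneg σ]
  rw [abs_mul σ, hσ1, abs_of_pos hb0]
  linarith

/-- the exponent in the first moment -/
lemma ex1b (h : Big K η m) {b : ℝ} (hb0 : 0 < b) (hb : b ≤ 2 * Real.pi) {j : ℕ} (hj : j ≤ K - 4) (u : ℝ) :
    (b ^ 2 * V0 K m + 2 * b * (1 / K) *
      Cv (Sh u (Gp (s1 m) (rp K m))) (Sh u (Gp (lv K m j) (rp K m))) + (1 / K) ^ 2 * Vj K m j) / 2 -
      b ^ 2 / 2 * V0 K m - 1 / K * (b * Vj K m j + sk K m) ≤
      1 - Real.log m / (10 * K ^ 2) := by
  have hK := h.K0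
  have hl := h.l1
  have h1 := h.CmV hj u
  have h2 : Vj K m j ≤ Real.log m / 18 := h.Vl hj
  have hpi := Real.pi_pos
  have hpi3 := Real.pi_gt_three
  have hpi4 := Real.pi_lt_d2
  obtain ⟨C, hC⟩ : ∃ C : ℝ, C = Cv (Sh u (Gp (s1 m) (rp K m))) (Sh u (Gp (lv K m j) (rp K m))) := ⟨_, rfl⟩
  rw [← hC] at h1 ⊢
  have e : (b ^ 2 * V0 K m + 2 * b * (1 / K) * C + (1 / K) ^ 2 * Vj K m j) / 2 -
      b ^ 2 / 2 * V0 K m - 1 / K * (b * Vj K m j + sk K m) =
      b / K * (C - Vj K m j) + (1 / K) ^ 2 * (Vj K m j / 2) - 1 / K * sk K m := by ring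
  rw [e]
  have b1 : b / K * (C - Vj K m j) ≤ 1 := by
    calc b / K * (C - Vj K m j) ≤ b / K * (1 / 9) :=
          mul_le_mul_of_nonneg_left h1 (by positivity)
      _ ≤ 1 := by
          rw [div_mul_eq_mul_div, div_le_one (by linarith)]
          linarith
  have b2 : (1 / (K : ℝ)) ^ 2 * (Vj K m j / 2) ≤ (1 / (K : ℝ)) ^ 2 * (Real.log m / 36) := by
    apply mul_le_mul_of_nonneg_left _ (by positivity)
    linarith
  have b3 : (1 / (K : ℝ)) ^ 2 * (Real.log m / 7) ≤ 1 / K * sk K m := by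
    have e3 : 1 / K * sk K m = (1 / (K : ℝ)) ^ 2 * (Real.log m / (2 * Real.pi)) := by
      unfold sk
      field_simp
    rw [e3]
    apply mul_le_mul_of_nonneg_left _ (by positivity)
    apply div_le_div_of_nonneg_left (by linarith) (by positivity)
    linarith
  have e4 : Real.log m / (10 * K ^ 2) = (1 / (K : ℝ)) ^ 2 * (Real.log m / 10) := by
    field_simp
  rw [e4]
  have b5 : (1 / (K : ℝ)) ^ 2 * (Real.log m / 10) ≤ (1 / (K : ℝ)) ^ 2 * (Real.log m / 7 - Real.log m / 36) := by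
    apply mul_le_mul_of_nonneg_left _ (by positivity)
    linarith
  linarith

lemma V0lo' (h : Big K η m) (b : ℝ) : b ^ 2 / (4 * Real.pi ^ 2) * (3 / 8 * Real.log m) ≤ b ^ 2 / 2 * V0 K m := by
  have h1 := h.V0lo
  have hpi := Real.pi_pos
  have h2 := mul_le_mul_of_nonneg_left h1 (show 0 ≤ b ^ 2 / (4 * Real.pi ^ 2) by positivity)
  refine h2.trans (le_of_eq ?_)
  field_simp
  ring

/-- **the first moment** -/
theorem firstb (h : Big K η m) (hη : 0 < η) (hη3 : η ≤ 1 / 3) {σ ε b : ℝ} (hσ : σ ^ 2 = 1)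
    (hb0 : 0 < b) (hb : b ≤ 2 * Real.pi) (hε : 0 < ε)
    (hε1 : ε < 1) (hb1 : 2 * K * Real.exp (1 - Real.log m / (10 * K ^ 2)) ≤ η)
    (hb2 : 2 * Real.exp (-(ε ^ 2 * (b ^ 2 / (4 * Real.pi ^ 2) * (3 / 8 * Real.log m)))) ≤ η) {u : ℕ}
    (hu : u ∈ Finset.Icc 1 m) :
    ∀ᶠ T in atTop, 1 - 5 * η ≤ EX T (Wb K m σ ε b u T) := by
  have hK := h.K0
  have hl := h.l1
  have hpi := Real.pi_pos
  have hpi3 := Real.pi_gt_three
  have hpi4 := Real.pi_lt_d2
  have hb7 : b ≤ 7 := by linarith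
  have hbs := b_sq hb0 hb
  have hσ1 : |σ| = 1 := by
    have : |σ| ^ 2 = 1 := by rw [sq_abs, hσ]
    nlinarith [abs_nonneg σ]
  have hpq := pi_sq10
  have hV0 := h.V0up
  have hV00 : 0 ≤ V0 K m := Vr_nonneg _
  have eVV : Vr (Gp (s1 m) (rp K m)) = V0 K m := rfl
  have eVj : ∀ j, Vr (Gp (lv K m j) (rp K m)) = Vj K m j := fun j => rfl
  -- the whole exponential
  have L1 := lapA h hη hη3 hu (Nat.zero_le (K - 4)) (σ * b) 0 (by
    rw [abs_mul, hσ1, abs_of_pos hb0, abs_zero]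
    linarith) (by
    rw [eVV]
    have e : (σ * b) ^ 2 = b ^ 2 := by rw [mul_pow, hσ]; ring
    rw [e]
    nlinarith)
  have eL1 : ((σ * b) ^ 2 * Vr (Gp (s1 m) (rp K m)) + 2 * (σ * b) * 0 *
      Cv (Sh u (Gp (s1 m) (rp K m))) (Sh u (Gp (lv K m 0) (rp K m))) + 0 ^ 2 * Vr (Gp (lv K m 0) (rp K m))) / 2 =
      b ^ 2 / 2 * V0 K m := by
    rw [eVV, mul_pow, hσ]
    ring
  rw [eL1] at L1
  -- the upper barriers
  have L2 : ∀ᶠ T in atTop, ∀ j ∈ Finset.range (K - 3), EX T ((BB K m T).indicator fun t =>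
      Real.exp (σ * b * ZZ K m u 0 T t + σ * (1 / K) * ZZ K m u j T t)) ≤
      (1 + 3 * η) * Real.exp ((b ^ 2 * V0 K m + 2 * b * (1 / K) *
      Cv (Sh u (Gp (s1 m) (rp K m))) (Sh u (Gp (lv K m j) (rp K m))) + (1 / K) ^ 2 * Vj K m j) / 2) := by
    rw [Filter.eventually_all_finset]
    intro j hj
    have hj4 : j ≤ K - 4 := by
      have := Finset.mem_range.1 hj
      omega
    have hCb := h.Cbd hj4 u
    have hVj : Vj K m j ≤ Real.log m / 18 := h.Vl hj4
    have hVj0 : 0 ≤ Vj K m j := Vr_nonneg _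
    have e5 : (σ * b) ^ 2 * Vr (Gp (s1 m) (rp K m)) + 2 * (σ * b) * (σ * (1 / K)) *
      Cv (Sh u (Gp (s1 m) (rp K m))) (Sh u (Gp (lv K m j) (rp K m))) +
      (σ * (1 / K)) ^ 2 * Vr (Gp (lv K m j) (rp K m)) =
      b ^ 2 * V0 K m + 2 * b * (1 / K) *
      Cv (Sh u (Gp (s1 m) (rp K m))) (Sh u (Gp (lv K m j) (rp K m))) + (1 / K) ^ 2 * Vj K m j := by
      rw [eVV, eVj]
      have : (σ * b) ^ 2 * V0 K m + 2 * (σ * b) * (σ * (1 / K)) *
        Cv (Sh u (Gp (s1 m) (rp K m))) (Sh u (Gp (lv K m j) (rp K m))) + (σ * (1 / K)) ^ 2 * Vj K m j =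
        σ ^ 2 * (b ^ 2 * V0 K m + 2 * b * (1 / K) *
      Cv (Sh u (Gp (s1 m) (rp K m))) (Sh u (Gp (lv K m j) (rp K m))) + (1 / K) ^ 2 * Vj K m j) := by ring
      rw [this, hσ, one_mul]
    have hK1 : 1 / (K : ℝ) ≤ 1 / 8 := one_div_le_one_div_of_le (by norm_num) hK
    have hK10 : 0 < 1 / (K : ℝ) := by positivity
    have := lapA h hη hη3 hu hj4 (σ * b) (σ * (1 / K)) (by
      rw [abs_mul σ, abs_mul σ, hσ1, abs_of_pos hb0, abs_of_pos hK10]
      linarith) (by
      rw [e5]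
      obtain ⟨C, hC⟩ : ∃ C : ℝ, C = Cv (Sh u (Gp (s1 m) (rp K m))) (Sh u (Gp (lv K m j) (rp K m))) := ⟨_, rfl⟩
      rw [← hC] at hCb ⊢
      have c1 : b ^ 2 * V0 K m ≤ 40 * (Real.log m / 18) := by nlinarith
      have c2 : 2 * b * (1 / K) * C ≤ 2 * (Real.log m / 18 + 1) := by
        have hC1 : C ≤ Real.log m / 18 + 1 := (le_abs_self C).trans hCb
        have c3 : 2 * b * (1 / K) ≤ 2 := by nlinarith
        have c4 : 0 < 2 * b * (1 / K) := by positivity
        rcases le_or_gt 0 C with h0 | h0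
        · calc 2 * b * (1 / K) * C ≤ 2 * C := mul_le_mul_of_nonneg_right c3 h0
            _ ≤ _ := by linarith
        · have : 2 * b * (1 / K) * C ≤ 0 := by nlinarith
          have : 0 ≤ 2 * (Real.log m / 18 + 1) := by positivity
          linarith
      have c5 : (1 / (K : ℝ)) ^ 2 * Vj K m j ≤ 1 * (Real.log m / 18) := by
        apply mul_le_mul _ hVj hVj0 (by norm_num)
        nlinarith
      linarith)
    rw [e5] at this
    filter_upwards [this] with T hT
    exact hT.2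
  -- the lower barrier
  have hε1' : 0 < 1 - ε := by linarith
  have L3 := lapA h hη hη3 hu (Nat.zero_le (K - 4)) (σ * (b * (1 - ε))) 0 (by
    rw [abs_mul, hσ1, abs_of_pos (by positivity), abs_zero]
    nlinarith) (by
    rw [eVV]
    have e : (σ * (b * (1 - ε))) ^ 2 = b ^ 2 * (1 - ε) ^ 2 := by rw [mul_pow, hσ]; ring
    rw [e]
    have : (1 - ε) ^ 2 ≤ 1 := by nlinarith
    have h2 : b ^ 2 * (1 - ε) ^ 2 ≤ 40 := by nlinarith [sq_nonneg (1 - ε)]
    have h3 : 0 ≤ b ^ 2 * (1 - ε) ^ 2 := by positivity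
    nlinarith)
  have eL3 : ((σ * (b * (1 - ε))) ^ 2 * Vr (Gp (s1 m) (rp K m)) + 2 * (σ * (b * (1 - ε))) * 0 *
      Cv (Sh u (Gp (s1 m) (rp K m))) (Sh u (Gp (lv K m 0) (rp K m))) + 0 ^ 2 * Vr (Gp (lv K m 0) (rp K m))) / 2 =
      b ^ 2 / 2 * V0 K m * (1 - ε) ^ 2 := by
    rw [eVV, mul_pow, hσ]
    ring
  rw [eL3] at L3
  filter_upwards [L1, L2, L3, eventually_gt_atTop 0] with T g1 g2 g3 hT
  obtain ⟨B, hB⟩ : ∃ B : Set ℝ, B = BB K m T := ⟨_, rfl⟩
  rw [← hB] at g1 g2 g3
  have hBm : MeasurableSet B := by rw [hB]; exact BB_meas K m T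
  have zj := fun j => ZZ_cont K m u j T
  obtain ⟨X, hX⟩ : ∃ X : ℕ → ℝ → ℝ, X = fun j t => ZZ K m u j T t := ⟨_, rfl⟩
  have hXj : ∀ j t, ZZ K m u j T t = X j t := fun j t => by rw [hX]
  simp only [hXj] at g1 g2 g3
  have nX : ∀ j, Continuous (X j) := fun j => by
    have : X j = ZZ K m u j T := by rw [hX]
    rw [this]
    exact zj j
  have nX0 := nX 0
  have n1 : Nc T (B.indicator fun t => Real.exp (σ * b * X 0 t + 0 * X 0 t)) :=
    (Nc.of_cont (by fun_prop)).ind hBm
  have n2 : ∀ j ∈ Finset.range (K - 3), Nc T (fun t =>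
      Real.exp (-(1 / K * (b * Vj K m j + sk K m))) * B.indicator (fun t =>
      Real.exp (σ * b * X 0 t + σ * (1 / K) * X j t)) t) := by
    intro j _
    have := nX j
    exact ((Nc.of_cont (by fun_prop)).ind hBm).cmul _
  have n3 : Nc T (B.indicator fun t => Real.exp (σ * (b * (1 - ε)) * X 0 t + 0 * X 0 t)) :=
    (Nc.of_cont (by fun_prop)).ind hBm
  have nW := Wb_nc K m σ ε b u T
  obtain ⟨c, hc⟩ : ∃ c : ℝ, c = Real.exp (-(b ^ 2 / 2 * V0 K m)) := ⟨_, rfl⟩
  have hc0 : 0 < c := by rw [hc]; exact Real.exp_pos _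
  obtain ⟨c3, hc3⟩ : ∃ c3 : ℝ, c3 = Real.exp (b * ε * ((1 - ε) * b * V0 K m)) := ⟨_, rfl⟩
  have hc30 : 0 < c3 := by rw [hc3]; exact Real.exp_pos _
  have key : EX T (fun t => c * B.indicator (fun t => Real.exp (σ * b * X 0 t + 0 * X 0 t)) t) ≤
      EX T (fun t => Wb K m σ ε b u T t + (c * (∑ j ∈ Finset.range (K - 3),
        Real.exp (-(1 / K * (b * Vj K m j + sk K m))) * B.indicator (fun t =>
        Real.exp (σ * b * X 0 t + σ * (1 / K) * X j t)) t) +
        c * c3 * B.indicator (fun t => Real.exp (σ * (b * (1 - ε)) * X 0 t + 0 * X 0 t)) t)) := by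
    apply EX_mono hT (n1.cmul c) (nW.add (((Nc.sum _ n2).cmul c).add (n3.cmul _)))
    intro t _
    have pos2 : 0 ≤ ∑ j ∈ Finset.range (K - 3), Real.exp (-(1 / K * (b * Vj K m j + sk K m))) *
        B.indicator (fun t => Real.exp (σ * b * X 0 t + σ * (1 / K) * X j t)) t :=
      Finset.sum_nonneg fun j _ => mul_nonneg (Real.exp_pos _).le
        (indicator_nonneg (fun _ _ => (Real.exp_pos _).le) _)
    have pos3 : 0 ≤ B.indicator (fun t => Real.exp (σ * (b * (1 - ε)) * X 0 t + 0 * X 0 t)) t :=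
      indicator_nonneg (fun _ _ => (Real.exp_pos _).le) _
    have posW := Wb_nonneg K m σ ε b u T t
    by_cases ht : t ∈ B
    · by_cases hg : t ∈ Gb K m σ ε b u T
      · have hm : t ∈ BB K m T ∩ Gb K m σ ε b u T := ⟨by rw [← hB]; exact ht, hg⟩
        have e6 : c * B.indicator (fun t => Real.exp (σ * b * X 0 t + 0 * X 0 t)) t =
            Wb K m σ ε b u T t := by
          unfold Wb
          rw [indicator_of_mem ht, indicator_of_mem hm, hc, ← Real.exp_add, hXj]
          congr 1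
          ring
        rw [e6]
        have : 0 ≤ c * (∑ j ∈ Finset.range (K - 3), Real.exp (-(1 / K * (b * Vj K m j + sk K m))) *
          B.indicator (fun t => Real.exp (σ * b * X 0 t + σ * (1 / K) * X j t)) t) :=
          mul_nonneg hc0.le pos2
        have : 0 ≤ c * c3 * B.indicator (fun t => Real.exp (σ * (b * (1 - ε)) * X 0 t + 0 * X 0 t)) t :=
          mul_nonneg (by positivity) pos3
        linarith
      · have hg2 : ¬ ((1 - ε) * b * V0 K m ≤ σ * ZZ K m u 0 T t ∧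
            ∀ j ∈ Finset.range (K - 3), σ * ZZ K m u j T t ≤ b * Vj K m j + sk K m) := hg
        simp only [hXj] at hg2
        by_cases hlow : (1 - ε) * b * V0 K m ≤ σ * X 0 t
        · -- a barrier is crossed
          have hex : ∃ j ∈ Finset.range (K - 3), b * Vj K m j + sk K m < σ * X j t := by
            by_contra hcon
            push Not at hcon
            exact hg2 ⟨hlow, hcon⟩
          obtain ⟨j, hj, hjt⟩ := hex
          have h7 : B.indicator (fun t => Real.exp (σ * b * X 0 t + 0 * X 0 t)) t ≤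
              ∑ j ∈ Finset.range (K - 3), Real.exp (-(1 / K * (b * Vj K m j + sk K m))) *
              B.indicator (fun t => Real.exp (σ * b * X 0 t + σ * (1 / K) * X j t)) t := by
            refine le_trans ?_ (Finset.single_le_sum (f := fun j =>
              Real.exp (-(1 / K * (b * Vj K m j + sk K m))) *
              B.indicator (fun t => Real.exp (σ * b * X 0 t + σ * (1 / K) * X j t)) t)
              (fun j _ => mul_nonneg (Real.exp_pos _).le
                (indicator_nonneg (fun _ _ => (Real.exp_pos _).le) _)) hj)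
            rw [indicator_of_mem ht, indicator_of_mem ht, ← Real.exp_add]
            apply Real.exp_le_exp.2
            have h8 : 0 ≤ 1 / (K : ℝ) * (σ * X j t - (b * Vj K m j + sk K m)) := by
              apply mul_nonneg (by positivity)
              linarith
            have e8 : 1 / (K : ℝ) * (σ * X j t - (b * Vj K m j + sk K m)) =
              σ * (1 / K) * X j t - 1 / K * (b * Vj K m j + sk K m) := by ring
            rw [e8] at h8
            linarith
          have h9 := mul_le_mul_of_nonneg_left h7 hc0.le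
          have : 0 ≤ c * c3 * B.indicator (fun t => Real.exp (σ * (b * (1 - ε)) * X 0 t + 0 * X 0 t)) t :=
            mul_nonneg (by positivity) pos3
          linarith
        · push Not at hlow
          have h7 : B.indicator (fun t => Real.exp (σ * b * X 0 t + 0 * X 0 t)) t ≤
              c3 * B.indicator (fun t => Real.exp (σ * (b * (1 - ε)) * X 0 t + 0 * X 0 t)) t := by
            rw [indicator_of_mem ht, indicator_of_mem ht, hc3, ← Real.exp_add]
            apply Real.exp_le_exp.2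
            have h8 : 0 ≤ b * ε * ((1 - ε) * b * V0 K m - σ * X 0 t) := by
              apply mul_nonneg (by positivity)
              linarith
            linarith
          have h9 := mul_le_mul_of_nonneg_left h7 hc0.le
          have : 0 ≤ c * (∑ j ∈ Finset.range (K - 3), Real.exp (-(1 / K * (b * Vj K m j + sk K m))) *
            B.indicator (fun t => Real.exp (σ * b * X 0 t + σ * (1 / K) * X j t)) t) :=
            mul_nonneg hc0.le pos2
          linarith
    · rw [indicator_of_notMem ht, mul_zero]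
      have : 0 ≤ c * (∑ j ∈ Finset.range (K - 3), Real.exp (-(1 / K * (b * Vj K m j + sk K m))) *
        B.indicator (fun t => Real.exp (σ * b * X 0 t + σ * (1 / K) * X j t)) t) :=
        mul_nonneg hc0.le pos2
      have : 0 ≤ c * c3 * B.indicator (fun t => Real.exp (σ * (b * (1 - ε)) * X 0 t + 0 * X 0 t)) t :=
        mul_nonneg (by positivity) pos3
      linarith
  rw [EX_cmul, EX_add nW (((Nc.sum _ n2).cmul c).add (n3.cmul _)), EX_add ((Nc.sum _ n2).cmul c) (n3.cmul _),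
    EX_cmul, EX_cmul, EX_sum _ n2] at key
  simp only [EX_cmul] at key
  have k1 : 1 - 3 * η ≤ c * EX T (B.indicator fun t => Real.exp (σ * b * X 0 t + 0 * X 0 t)) := by
    have := mul_le_mul_of_nonneg_left g1.1 hc0.le
    refine le_trans (le_of_eq ?_) this
    rw [hc]
    have e : Real.exp (-(b ^ 2 / 2 * V0 K m)) * ((1 - 3 * η) * Real.exp (b ^ 2 / 2 * V0 K m)) =
        (1 - 3 * η) * (Real.exp (-(b ^ 2 / 2 * V0 K m)) * Real.exp (b ^ 2 / 2 * V0 K m)) := by ring
    rw [e, ← Real.exp_add, neg_add_cancel, Real.exp_zero, mul_one]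
  have k2 : c * ∑ j ∈ Finset.range (K - 3), Real.exp (-(1 / K * (b * Vj K m j + sk K m))) *
      EX T (fun t => B.indicator (fun t => Real.exp (σ * b * X 0 t + σ * (1 / K) * X j t)) t) ≤ η := by
    have k3 : ∀ j ∈ Finset.range (K - 3), c * (Real.exp (-(1 / K * (b * Vj K m j + sk K m))) *
        EX T (fun t => B.indicator (fun t => Real.exp (σ * b * X 0 t + σ * (1 / K) * X j t)) t)) ≤
        2 * Real.exp (1 - Real.log m / (10 * K ^ 2)) := by
      intro j hj
      have hj4 : j ≤ K - 4 := by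
        have := Finset.mem_range.1 hj
        omega
      have h1 := g2 j hj
      have h2 := ex1b h hb0 hb hj4 u
      calc _ ≤ c * (Real.exp (-(1 / K * (b * Vj K m j + sk K m))) * ((1 + 3 * η) *
            Real.exp ((b ^ 2 * V0 K m + 2 * b * (1 / K) *
            Cv (Sh u (Gp (s1 m) (rp K m))) (Sh u (Gp (lv K m j) (rp K m))) + (1 / K) ^ 2 * Vj K m j) / 2))) := by
            apply mul_le_mul_of_nonneg_left _ hc0.le
            exact mul_le_mul_of_nonneg_left h1 (Real.exp_pos _).le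
        _ = (1 + 3 * η) * Real.exp ((b ^ 2 * V0 K m + 2 * b * (1 / K) *
            Cv (Sh u (Gp (s1 m) (rp K m))) (Sh u (Gp (lv K m j) (rp K m))) + (1 / K) ^ 2 * Vj K m j) / 2 -
            b ^ 2 / 2 * V0 K m - 1 / K * (b * Vj K m j + sk K m)) := by
            rw [hc, sub_eq_add_neg, sub_eq_add_neg, Real.exp_add, Real.exp_add]
            ring
        _ ≤ 2 * Real.exp (1 - Real.log m / (10 * K ^ 2)) := by
            apply mul_le_mul (by linarith) (Real.exp_le_exp.2 h2) (Real.exp_pos _).le (by norm_num)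
    rw [Finset.mul_sum]
    refine (Finset.sum_le_sum k3).trans ?_
    rw [Finset.sum_const, Finset.card_range, nsmul_eq_mul]
    refine le_trans ?_ hb1
    have : ((K - 3 : ℕ) : ℝ) ≤ K := by exact_mod_cast Nat.sub_le _ _
    have h5 := Real.exp_pos (1 - Real.log m / (10 * (K : ℝ) ^ 2))
    nlinarith
  have k4 : c * c3 * EX T (B.indicator fun t => Real.exp (σ * (b * (1 - ε)) * X 0 t + 0 * X 0 t)) ≤ η := by
    calc _ ≤ c * c3 * ((1 + 3 * η) * Real.exp (b ^ 2 / 2 * V0 K m * (1 - ε) ^ 2)) := by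
          apply mul_le_mul_of_nonneg_left g3.2
          positivity
      _ = (1 + 3 * η) * Real.exp (-(ε ^ 2 * (b ^ 2 / 2 * V0 K m))) := by
          rw [hc, hc3]
          have e : Real.exp (-(ε ^ 2 * (b ^ 2 / 2 * V0 K m))) =
            Real.exp (-(b ^ 2 / 2 * V0 K m)) * Real.exp (b * ε * ((1 - ε) * b * V0 K m)) *
            Real.exp (b ^ 2 / 2 * V0 K m * (1 - ε) ^ 2) := by
            rw [← Real.exp_add, ← Real.exp_add]
            congr 1
            ring
          rw [e]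
          ring
      _ ≤ 2 * Real.exp (-(ε ^ 2 * (b ^ 2 / (4 * Real.pi ^ 2) * (3 / 8 * Real.log m)))) := by
          apply mul_le_mul (by linarith) _ (Real.exp_pos _).le (by norm_num)
          apply Real.exp_le_exp.2
          have h1 := V0lo' h b
          have h2 : 0 ≤ ε ^ 2 := sq_nonneg _
          nlinarith
      _ ≤ η := hb2
  have e9 : EX T (fun t => Wb K m σ ε b u T t) = EX T (Wb K m σ ε b u T) := rfl
  linarith

end

end Pool.Agent.K6.H15.TP
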