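import Pool.Agent.K6.H15.TP.Fm

/-! # Thick points: the tilted second moment -/

set_option autoImplicit false

open MeasureTheory Set Filter Topology
open scoped ContDiff NNReal

namespace Pool.Agent.K6.H15.TP

open Pool.Agent.K6.H57.ML Pool.Agent.K6.H57.MX

noncomputable section

variable {K m : ℕ} {η : ℝ}

/-- the exponent of a pair -/
lemma ex2b (h : Big K η m) {b : ℝ} (hb0 : 0 < b) (hb : b ≤ 2 * Real.pi) {j : ℕ} (hj : j ≤ K - 4)
    {C C1 : ℝ} (hC : |C| ≤ C1) :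
    -(b ^ 2 * V0 K m) + b * (b * Vj K m j + sk K m) +
      b ^ 2 * (V0 K m + 2 * C + Vr (Gp (s1 m) (lv K m j))) / 2 ≤
      ((K - 3 - j : ℕ) : ℝ) * (Real.log m / K) + (3 + 40 * C1) := by
  have hK := h.K0
  have hl := h.l1
  have hs := h.s1ge
  have hlv := h.lv_ge j
  have hrp := h.rp_pos
  have hs0 : 0 < s1 m := by linarith
  have hlv0 : 0 < lv K m j := by linarith
  have hpi := Real.pi_pos
  have hpq := pi_sq10
  have h2 := log2_lt
  have hbs := b_sq hb0 hb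
  obtain ⟨ρ, hρ⟩ : ∃ ρ : ℝ, ρ = b ^ 2 / (4 * Real.pi ^ 2) := ⟨_, rfl⟩
  have hρ0 : 0 ≤ ρ := by rw [hρ]; positivity
  have hρ1 : ρ ≤ 1 := by
    rw [hρ, div_le_one (by positivity)]
    have : b ^ 2 ≤ (2 * Real.pi) ^ 2 := pow_le_pow_left₀ hb0.le hb 2
    linarith
  have hbρ : b ^ 2 = ρ * (4 * Real.pi ^ 2) := by
    rw [hρ]
    field_simp
  have hV0 : Real.log (rp K m) - Real.log (s1 m) - Real.log 2 ≤ 2 * Real.pi ^ 2 * V0 K m := by
    have h3 := Vr_lo (a := s1 m) (b := rp K m) (by linarith) h.s1_rp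
    have h4 := mul_le_mul_of_nonneg_left h3 (show 0 ≤ 2 * Real.pi ^ 2 by positivity)
    rw [Real.log_div hrp.ne' hs0.ne'] at h4
    unfold V0
    refine le_trans (le_of_eq ?_) h4
    field_simp
  have hVj : 4 * Real.pi ^ 2 * Vj K m j ≤ 2 * (Real.log (rp K m) - Real.log (lv K m j) + Real.log 2) := by
    have h3 := h.Vup hj
    have h4 := mul_le_mul_of_nonneg_left h3 (show 0 ≤ 4 * Real.pi ^ 2 by positivity)
    rw [Real.log_div hrp.ne' hlv0.ne'] at h4
    unfold Vj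
    refine le_trans h4 (le_of_eq ?_)
    field_simp
    ring
  have hVs : 2 * Real.pi ^ 2 * Vr (Gp (s1 m) (lv K m j)) ≤
      Real.log (lv K m j) - Real.log (s1 m) + Real.log 2 := by
    have h3 := Vr_up (a := s1 m) (b := lv K m j) (by linarith) hlv
    have h4 := mul_le_mul_of_nonneg_left h3 (show 0 ≤ 2 * Real.pi ^ 2 by positivity)
    rw [Real.log_div hlv0.ne' hs0.ne'] at h4
    refine le_trans h4 (le_of_eq ?_)
    field_simp
  have hsk0 : 0 ≤ sk K m := by
    unfold sk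
    positivity
  have hsk : b * sk K m ≤ Real.log m / K := by
    have e : 2 * Real.pi * sk K m = Real.log m / K := by
      unfold sk
      field_simp
    rw [← e]
    exact mul_le_mul_of_nonneg_right hb hsk0
  have hCC : b ^ 2 * C ≤ 40 * C1 := by
    have h3 := (le_abs_self C).trans hC
    have h4 := (abs_nonneg C).trans hC
    calc b ^ 2 * C ≤ b ^ 2 * C1 := mul_le_mul_of_nonneg_left h3 (by positivity)
      _ ≤ _ := mul_le_mul_of_nonneg_right hbs h4
  have hrl := h.rp_log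
  have hll := h.loglv j
  have hcast : ((K - 3 - j : ℕ) : ℝ) = ((K - 4 : ℕ) : ℝ) + 1 - j := by
    have h8 := h.K8
    rw [Nat.cast_sub (by omega), Nat.cast_sub (by omega), Nat.cast_sub (by omega)]
    push_cast
    ring
  have e : -(b ^ 2 * V0 K m) + b * (b * Vj K m j + sk K m) +
      b ^ 2 * (V0 K m + 2 * C + Vr (Gp (s1 m) (lv K m j))) / 2 =
      ρ * (-(2 * Real.pi ^ 2 * V0 K m) + 4 * Real.pi ^ 2 * Vj K m j + 2 * Real.pi ^ 2 * Vr (Gp (s1 m) (lv K m j))) +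
      b * sk K m + b ^ 2 * C := by
    have e1 : -(b ^ 2 * V0 K m) + b * (b * Vj K m j + sk K m) +
      b ^ 2 * (V0 K m + 2 * C + Vr (Gp (s1 m) (lv K m j))) / 2 =
      b ^ 2 * (-(V0 K m) / 2 + Vj K m j + Vr (Gp (s1 m) (lv K m j)) / 2) + b * sk K m + b ^ 2 * C := by ring
    rw [e1]
    nth_rewrite 1 [hbρ]
    ring
  have hX : -(2 * Real.pi ^ 2 * V0 K m) + 4 * Real.pi ^ 2 * Vj K m j + 2 * Real.pi ^ 2 * Vr (Gp (s1 m) (lv K m j)) ≤
      Real.log (rp K m) - Real.log (lv K m j) + 4 * Real.log 2 := by linarith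
  have hX0 : 0 ≤ Real.log (rp K m) - Real.log (lv K m j) + 4 * Real.log 2 := by
    have h5 : Real.log (lv K m j) ≤ Real.log (rp K m) := Real.log_le_log hlv0 (h.lv_le hj)
    have h6 : 0 ≤ Real.log 2 := Real.log_nonneg (by norm_num)
    linarith
  have hρX : ρ * (-(2 * Real.pi ^ 2 * V0 K m) + 4 * Real.pi ^ 2 * Vj K m j +
      2 * Real.pi ^ 2 * Vr (Gp (s1 m) (lv K m j))) ≤
      Real.log (rp K m) - Real.log (lv K m j) + 4 * Real.log 2 :=
    (mul_le_mul_of_nonneg_left hX hρ0).trans (mul_le_of_le_one_left hX0 hρ1)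
  rw [e, hcast, sub_mul, add_mul, one_mul, ← hrl]
  linarith

lemma Wb_mul (σ ε : ℝ) {b : ℝ} (hb0 : 0 < b) (u v j : ℕ) (T t : ℝ) (hj : j ∈ Finset.range (K - 3)) :
    Wb K m σ ε b u T t * Wb K m σ ε b v T t ≤
      Real.exp (-(b ^ 2 * V0 K m) + b * (b * Vj K m j + sk K m)) *
      (BB K m T).indicator (fun t => Real.exp (σ * b *
        (ZZ K m u 0 T t + ZZ K m v 0 T t - ZZ K m v j T t))) t := by
  unfold Wb
  by_cases h1 : t ∈ BB K m T ∩ Gb K m σ ε b u T
  · by_cases h2 : t ∈ BB K m T ∩ Gb K m σ ε b v T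
    · rw [indicator_of_mem h1, indicator_of_mem h2, indicator_of_mem h1.1, ← Real.exp_add, ← Real.exp_add]
      apply Real.exp_le_exp.2
      have h3 : σ * ZZ K m v j T t ≤ b * Vj K m j + sk K m := h2.2.2 j hj
      have h4 := mul_le_mul_of_nonneg_left h3 hb0.le
      linarith
    · rw [indicator_of_notMem h2, mul_zero]
      exact mul_nonneg (Real.exp_pos _).le (indicator_nonneg (fun _ _ => (Real.exp_pos _).le) _)
  · rw [indicator_of_notMem h1, zero_mul]
    exact mul_nonneg (Real.exp_pos _).le (indicator_nonneg (fun _ _ => (Real.exp_pos _).le) _)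

lemma Wb_far (h : Big K η m) (σ ε b : ℝ) (u v : ℕ) (T t : ℝ) :
    Wb K m σ ε b u T t * Wb K m σ ε b v T t ≤
      Real.exp (-(b ^ 2 * V0 K m)) *
      (BB K m T).indicator (fun t => Real.exp (σ * b *
        (ZZ K m u 0 T t + ZZ K m v 0 T t - ZZ K m v (K - 4) T t))) t := by
  simp only [ZZ_top h]
  unfold Wb
  by_cases h1 : t ∈ BB K m T ∩ Gb K m σ ε b u T
  · by_cases h2 : t ∈ BB K m T ∩ Gb K m σ ε b v T
    · rw [indicator_of_mem h1, indicator_of_mem h2, indicator_of_mem h1.1, ← Real.exp_add, ← Real.exp_add]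
      apply Real.exp_le_exp.2
      linarith
    · rw [indicator_of_notMem h2, mul_zero]
      exact mul_nonneg (Real.exp_pos _).le (indicator_nonneg (fun _ _ => (Real.exp_pos _).le) _)
  · rw [indicator_of_notMem h1, zero_mul]
    exact mul_nonneg (Real.exp_pos _).le (indicator_nonneg (fun _ _ => (Real.exp_pos _).le) _)

/-- **near pairs** -/
theorem nearb (h : Big K η m) (hη : 0 < η) (hη3 : η ≤ 1 / 3) {σ ε b : ℝ} (hσ : σ ^ 2 = 1)
    (hb0 : 0 < b) (hb : b ≤ 2 * Real.pi) {C1 : ℝ}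
    (hC1 : 0 < C1) (hl1 : 160 * C1 ≤ Real.log m)
    (hC : ∀ a c b u v : ℝ, 1 ≤ a → a ≤ c → c ≤ b → u ≠ v → |Cv (Sh u (Gp a b)) (Sh v (Gp a c))| ≤ C1 * (c / |u - v|))
    {u v j : ℕ} (hu : u ∈ Finset.Icc 1 m) (hv : v ∈ Finset.Icc 1 m) (hj : j ≤ K - 4)
    (hd : j = 0 ∨ lv K m j ≤ |(u : ℝ) - v|) :
    ∀ᶠ T in atTop, EX T (fun t => Wb K m σ ε b u T t * Wb K m σ ε b v T t) ≤
      (1 + 3 * η) * Real.exp (((K - 3 - j : ℕ) : ℝ) * (Real.log m / K) + (3 + 40 * C1)) := by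
  have hs := h.s1ge
  have hlv := h.lv_ge j
  have hl := h.l1
  have hpq := pi_sq10
  have hpi := Real.pi_pos
  have hbs := b_sq hb0 hb
  have hV0 := h.V0up
  have hV00 : 0 ≤ V0 K m := Vr_nonneg _
  have hVs := h.Vs hj
  have hVs0 : 0 ≤ Vr (Gp (s1 m) (lv K m j)) := Vr_nonneg _
  have hCb : |Cv (Sh u (Gp (s1 m) (rp K m))) (Sh v (Gp (s1 m) (lv K m j)))| ≤ C1 := by
    rcases hd with hd | hd
    · rw [Cv_Gp, hd, lv_zero]
      simp only [dc_self, mul_zero, zero_div, zero_mul, intervalIntegral.integral_zero, abs_zero]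
      exact hC1.le
    · have hpos : 0 < |(u : ℝ) - v| := by linarith
      have huv : (u : ℝ) ≠ v := by
        intro he
        rw [he, sub_self, abs_zero] at hpos
        exact lt_irrefl _ hpos
      have h1 := hC (s1 m) (lv K m j) (rp K m) u v (by linarith) hlv (h.lv_le hj) huv
      refine h1.trans ?_
      have : lv K m j / |(u : ℝ) - v| ≤ 1 := by
        rw [div_le_one hpos]
        exact hd
      nlinarith
  obtain ⟨C, hCe⟩ : ∃ C : ℝ, C = Cv (Sh u (Gp (s1 m) (rp K m))) (Sh v (Gp (s1 m) (lv K m j))) := ⟨_, rfl⟩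
  have eσ : (σ * b) ^ 2 = b ^ 2 := by rw [mul_pow, hσ, one_mul]
  have L := lapB h hη hη3 hu hv hj (σ * b) (sb_abs hσ hb0 hb) (by
    rw [eσ, ← hCe]
    rw [← hCe] at hCb
    have a1 : Vr (Gp (s1 m) (rp K m)) = V0 K m := rfl
    rw [a1]
    have a2 := (le_abs_self C).trans hCb
    have a3 : V0 K m + 2 * C + Vr (Gp (s1 m) (lv K m j)) ≤ Real.log m / 9 + 2 * C1 := by linarith
    calc b ^ 2 * (V0 K m + 2 * C + Vr (Gp (s1 m) (lv K m j))) ≤
        b ^ 2 * (Real.log m / 9 + 2 * C1) := mul_le_mul_of_nonneg_left a3 (by positivity)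
      _ ≤ 40 * (Real.log m / 9 + 2 * C1) := mul_le_mul_of_nonneg_right hbs (by positivity)
      _ ≤ 5 * Real.log m := by linarith)
  rw [eσ, ← hCe] at L
  rw [← hCe] at hCb
  have hE := ex2b h hb0 hb hj hCb
  filter_upwards [L, eventually_gt_atTop 0] with T hT hT0
  have n1 : Nc T fun t => Wb K m σ ε b u T t * Wb K m σ ε b v T t :=
    (Wb_nc K m σ ε b u T).mul (Wb_nc K m σ ε b v T)
  have z1 := ZZ_cont K m u 0 T
  have z2 := ZZ_cont K m v 0 T
  have z3 := ZZ_cont K m v j T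
  have n2 : Nc T ((BB K m T).indicator (fun t => Real.exp (σ * b *
        (ZZ K m u 0 T t + ZZ K m v 0 T t - ZZ K m v j T t)))) :=
    (Nc.of_cont (by fun_prop)).ind (BB_meas K m T)
  have h2 := EX_mono hT0 n1 (n2.cmul (Real.exp (-(b ^ 2 * V0 K m) +
    b * (b * Vj K m j + sk K m))))
    (fun t _ => Wb_mul σ ε hb0 u v j T t (by
      rw [Finset.mem_range]
      have := h.K8
      omega))
  refine h2.trans ?_
  rw [EX_cmul]
  refine (mul_le_mul_of_nonneg_left hT (Real.exp_pos _).le).trans ?_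
  have e9 : Real.exp (-(b ^ 2 * V0 K m) + b * (b * Vj K m j + sk K m)) *
      ((1 + 3 * η) * Real.exp (b ^ 2 * (Vr (Gp (s1 m) (rp K m)) + 2 * C +
        Vr (Gp (s1 m) (lv K m j))) / 2)) =
      (1 + 3 * η) * Real.exp (-(b ^ 2 * V0 K m) + b * (b * Vj K m j + sk K m) +
      b ^ 2 * (V0 K m + 2 * C + Vr (Gp (s1 m) (lv K m j))) / 2) := by
    rw [Real.exp_add _ (b ^ 2 * (V0 K m + 2 * C + Vr (Gp (s1 m) (lv K m j))) / 2)]
    unfold V0
    ring
  rw [e9]
  exact mul_le_mul_of_nonneg_left (Real.exp_le_exp.2 hE) (by linarith)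

/-- **far pairs** -/
theorem farb (h : Big K η m) (hη : 0 < η) (hη3 : η ≤ 1 / 3) {σ ε b : ℝ} (hσ : σ ^ 2 = 1)
    (hb0 : 0 < b) (hb : b ≤ 2 * Real.pi) {C1 : ℝ}
    (hC1 : 0 < C1) (hl1 : 160 * C1 ≤ Real.log m)
    (hC : ∀ a c b u v : ℝ, 1 ≤ a → a ≤ c → c ≤ b → u ≠ v → |Cv (Sh u (Gp a b)) (Sh v (Gp a c))| ≤ C1 * (c / |u - v|))
    {u v : ℕ} (hu : u ∈ Finset.Icc 1 m) (hv : v ∈ Finset.Icc 1 m)
    (hd : Real.exp (((K - 3 : ℕ) : ℝ) * (Real.log m / K)) ≤ |(u : ℝ) - v|) :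
    ∀ᶠ T in atTop, EX T (fun t => Wb K m σ ε b u T t * Wb K m σ ε b v T t) ≤
      (1 + 3 * η) * Real.exp (40 * C1 * Real.exp (-(Real.log m / K))) := by
  have hs := h.s1ge
  have hl := h.l1
  have hpq := pi_sq10
  have hpi := Real.pi_pos
  have hbs := b_sq hb0 hb
  have hV0 := h.V0up
  have hV00 : 0 ≤ V0 K m := Vr_nonneg _
  have hpos : 0 < |(u : ℝ) - v| := lt_of_lt_of_le (Real.exp_pos _) hd
  have huv : (u : ℝ) ≠ v := by
    intro he
    rw [he, sub_self, abs_zero] at hpos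
    exact lt_irrefl _ hpos
  have hCb : |Cv (Sh u (Gp (s1 m) (rp K m))) (Sh v (Gp (s1 m) (lv K m (K - 4))))| ≤
      C1 * Real.exp (-(Real.log m / K)) := by
    have h1 := hC (s1 m) (lv K m (K - 4)) (rp K m) u v (by linarith) (h.lv_ge _) (h.lv_le le_rfl) huv
    refine h1.trans ?_
    apply mul_le_mul_of_nonneg_left _ hC1.le
    rw [div_le_iff₀ hpos, lv_top h]
    have e : rp K m = Real.exp (-(Real.log m / K)) * Real.exp (((K - 3 : ℕ) : ℝ) * (Real.log m / K)) := by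
      unfold rp
      rw [← Real.exp_add]
      congr 1
      have h8 := h.K8
      have : ((K - 3 : ℕ) : ℝ) = ((K - 4 : ℕ) : ℝ) + 1 := by
        rw [Nat.cast_sub (by omega), Nat.cast_sub (by omega)]
        push_cast
        ring
      rw [this]
      ring
    rw [e]
    exact mul_le_mul_of_nonneg_left hd (Real.exp_pos _).le
  obtain ⟨C, hCe⟩ : ∃ C : ℝ, C = Cv (Sh u (Gp (s1 m) (rp K m))) (Sh v (Gp (s1 m) (lv K m (K - 4)))) := ⟨_, rfl⟩
  have eσ : (σ * b) ^ 2 = b ^ 2 := by rw [mul_pow, hσ, one_mul]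
  have he1 : Real.exp (-(Real.log m / K)) ≤ 1 := Real.exp_le_one_iff.2 (by linarith [h.q0])
  have eV : Vr (Gp (s1 m) (lv K m (K - 4))) = V0 K m := by
    rw [lv_top h]
    rfl
  have L := lapB h hη hη3 hu hv le_rfl (σ * b) (sb_abs hσ hb0 hb) (by
    rw [eσ, ← hCe, eV]
    rw [← hCe] at hCb
    have a1 : Vr (Gp (s1 m) (rp K m)) = V0 K m := rfl
    rw [a1]
    have a2 := (le_abs_self C).trans hCb
    have a5 : C1 * Real.exp (-(Real.log m / K)) ≤ C1 * 1 := mul_le_mul_of_nonneg_left he1 hC1.le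
    have a3 : V0 K m + 2 * C + V0 K m ≤ Real.log m / 9 + 2 * C1 := by linarith
    calc b ^ 2 * (V0 K m + 2 * C + V0 K m) ≤
        b ^ 2 * (Real.log m / 9 + 2 * C1) := mul_le_mul_of_nonneg_left a3 (by positivity)
      _ ≤ 40 * (Real.log m / 9 + 2 * C1) := mul_le_mul_of_nonneg_right hbs (by positivity)
      _ ≤ 5 * Real.log m := by linarith)
  rw [eσ, ← hCe, eV] at L
  rw [← hCe] at hCb
  filter_upwards [L, eventually_gt_atTop 0] with T hT hT0
  have n1 : Nc T fun t => Wb K m σ ε b u T t * Wb K m σ ε b v T t :=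
    (Wb_nc K m σ ε b u T).mul (Wb_nc K m σ ε b v T)
  have z1 := ZZ_cont K m u 0 T
  have z2 := ZZ_cont K m v 0 T
  have z3 := ZZ_cont K m v (K - 4) T
  have n2 : Nc T ((BB K m T).indicator (fun t => Real.exp (σ * b *
        (ZZ K m u 0 T t + ZZ K m v 0 T t - ZZ K m v (K - 4) T t)))) :=
    (Nc.of_cont (by fun_prop)).ind (BB_meas K m T)
  have h2 := EX_mono hT0 n1 (n2.cmul (Real.exp (-(b ^ 2 * V0 K m))))
    (fun t _ => Wb_far h σ ε b u v T t)
  refine h2.trans ?_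
  rw [EX_cmul]
  refine (mul_le_mul_of_nonneg_left hT (Real.exp_pos _).le).trans ?_
  have e9 : Real.exp (-(b ^ 2 * V0 K m)) *
      ((1 + 3 * η) * Real.exp (b ^ 2 * (Vr (Gp (s1 m) (rp K m)) + 2 * C + V0 K m) / 2)) =
      (1 + 3 * η) * Real.exp (b ^ 2 * C) := by
    have : Real.exp (b ^ 2 * C) = Real.exp (-(b ^ 2 * V0 K m)) *
        Real.exp (b ^ 2 * (V0 K m + 2 * C + V0 K m) / 2) := by
      rw [← Real.exp_add]
      congr 1
      ring
    rw [this]
    unfold V0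
    ring
  rw [e9]
  apply mul_le_mul_of_nonneg_left (Real.exp_le_exp.2 _) (by linarith)
  have a2 := (le_abs_self C).trans hCb
  have a3 : 0 ≤ C1 * Real.exp (-(Real.log m / K)) := by positivity
  calc b ^ 2 * C ≤ b ^ 2 * (C1 * Real.exp (-(Real.log m / K))) :=
        mul_le_mul_of_nonneg_left a2 (by positivity)
    _ ≤ 40 * (C1 * Real.exp (-(Real.log m / K))) := mul_le_mul_of_nonneg_right hbs a3
    _ = _ := by ring

theorem pairsb (h : Big K η m) (hη : 0 < η) (hη3 : η ≤ 1 / 3) {σ ε b : ℝ} (hσ : σ ^ 2 = 1)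
    (hb0 : 0 < b) (hb : b ≤ 2 * Real.pi) {C1 : ℝ}
    (hC1 : 0 < C1) (hl1 : 160 * C1 ≤ Real.log m)
    (hC : ∀ a c b u v : ℝ, 1 ≤ a → a ≤ c → c ≤ b → u ≠ v → |Cv (Sh u (Gp a b)) (Sh v (Gp a c))| ≤ C1 * (c / |u - v|)) :
    ∀ᶠ T in atTop, ∀ u ∈ Finset.Icc 1 m, ∀ v ∈ Finset.Icc 1 m,
      EX T (fun t => Wb K m σ ε b u T t * Wb K m σ ε b v T t) ≤ cuv K m η C1 u v := by
  rw [Filter.eventually_all_finset]
  intro u hu
  rw [Filter.eventually_all_finset]
  intro v hv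
  have hK8 := h.K8
  have hterm : ∀ j ∈ Finset.range (K - 3), 0 ≤
      if |(u : ℝ) - v| < Real.exp (((j + 1 : ℕ) : ℝ) * (Real.log m / K)) then
      (1 + 3 * η) * Real.exp (((K - 3 - j : ℕ) : ℝ) * (Real.log m / K) + (3 + 40 * C1)) else 0 := by
    intro j _
    split_ifs
    · positivity
    · exact le_rfl
  rcases le_or_gt (Real.exp (((K - 3 : ℕ) : ℝ) * (Real.log m / K))) |(u : ℝ) - v| with hd | hd
  · filter_upwards [farb h hη hη3 (ε := ε) hσ hb0 hb hC1 hl1 hC hu hv hd] with T hT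
    unfold cuv
    have := Finset.sum_nonneg hterm
    linarith
  · have hex : ∃ j : ℕ, |(u : ℝ) - v| < Real.exp (((j + 1 : ℕ) : ℝ) * (Real.log m / K)) := by
      refine ⟨K - 4, ?_⟩
      have : K - 4 + 1 = K - 3 := by omega
      rw [this]
      exact hd
    classical
    obtain ⟨j, hj⟩ : ∃ j, j = Nat.find hex := ⟨_, rfl⟩
    have hj1 : |(u : ℝ) - v| < Real.exp (((j + 1 : ℕ) : ℝ) * (Real.log m / K)) := by
      rw [hj]
      exact Nat.find_spec hex
    have hj2 : j ≤ K - 4 := by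
      rw [hj]
      apply Nat.find_min' hex
      have : K - 4 + 1 = K - 3 := by omega
      rw [this]
      exact hd
    have hj3 : j = 0 ∨ lv K m j ≤ |(u : ℝ) - v| := by
      rcases Nat.eq_zero_or_pos j with h0 | h0
      · exact Or.inl h0
      · right
        have h5 : ¬ |(u : ℝ) - v| < Real.exp (((j - 1 + 1 : ℕ) : ℝ) * (Real.log m / K)) := by
          apply Nat.find_min hex
          omega
        have e : j - 1 + 1 = j := by omega
        rw [e] at h5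
        unfold lv
        rw [if_neg (by omega)]
        exact not_lt.1 h5
    filter_upwards [nearb h hη hη3 (ε := ε) hσ hb0 hb hC1 hl1 hC hu hv hj2 hj3] with T hT
    refine hT.trans ?_
    unfold cuv
    have hjm : j ∈ Finset.range (K - 3) := by
      rw [Finset.mem_range]
      omega
    have h6 := Finset.single_le_sum hterm hjm
    rw [if_pos hj1] at h6
    have h7 : 0 ≤ (1 + 3 * η) * Real.exp (40 * C1 * Real.exp (-(Real.log m / K))) := by positivity
    linarith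

open Classical in
/-- the number of high points -/
def cZ (K m : ℕ) (σ x T t : ℝ) : ℕ := ((Finset.Icc 1 m).filter fun u => x ≤ σ * ZZ K m u 0 T t).card

/-- **the second moment method: many high points** -/
theorem secondb (h : Big K η m) (hη : 0 < η) (hη3 : η ≤ 1 / 3) {σ ε b : ℝ} (hσ : σ ^ 2 = 1)
    (hb0 : 0 < b) (hb : b ≤ 2 * Real.pi) (hε : 0 < ε)
    (hε1 : ε < 1) (hb1 : 2 * K * Real.exp (1 - Real.log m / (10 * K ^ 2)) ≤ η)
    (hb2 : 2 * Real.exp (-(ε ^ 2 * (b ^ 2 / (4 * Real.pi ^ 2) * (3 / 8 * Real.log m)))) ≤ η) {C1 : ℝ}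
    (hC1 : 0 < C1) (hl1 : 160 * C1 ≤ Real.log m)
    (hC : ∀ a c b u v : ℝ, 1 ≤ a → a ≤ c → c ≤ b → u ≠ v → |Cv (Sh u (Gp a b)) (Sh v (Gp a c))| ≤ C1 * (c / |u - v|))
    (hb3 : 40 * C1 * Real.exp (-(Real.log m / K)) ≤ η)
    (hb4 : 6 * K * Real.exp (3 + 40 * C1 - 2 * (Real.log m / K)) ≤ η) :
    ∀ᶠ T in atTop, Pb T {t | (cZ K m σ ((1 - ε) * b * V0 K m) T t : ℝ) <
      m / 2 * Real.exp (-(b ^ 2 / 2 * V0 K m + b * sk K m))} ≤ 72 * η := by
  classical
  have hm2 := h.m2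
  have hm0 : (0 : ℝ) < m := by linarith
  have hK8 := h.K8
  have L1 : ∀ᶠ T in atTop, ∀ u ∈ Finset.Icc 1 m, 1 - 5 * η ≤ EX T (Wb K m σ ε b u T) := by
    rw [Filter.eventually_all_finset]
    intro u hu
    exact firstb h hη hη3 hσ hb0 hb hε hε1 hb1 hb2 hu
  have L2 := pairsb h hη hη3 (ε := ε) hσ hb0 hb hC1 hl1 hC
  filter_upwards [L1, L2, eventually_ge_atTop 1] with T g1 g2 hT1
  have hT : 0 < T := by linarith
  have nW : ∀ u ∈ Finset.Icc 1 m, Nc T (Wb K m σ ε b u T) := fun u _ => Wb_nc K m σ ε b u T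
  have nF := Nc.sum (Finset.Icc 1 m) nW
  obtain ⟨F, hF⟩ : ∃ F : ℝ → ℝ, F = fun t => ∑ u ∈ Finset.Icc 1 m, Wb K m σ ε b u T t := ⟨_, rfl⟩
  have hFt : ∀ t, F t = ∑ u ∈ Finset.Icc 1 m, Wb K m σ ε b u T t := fun t => by rw [hF]
  rw [← hF] at nF
  have k1 : m * (1 - 5 * η) ≤ EX T F := by
    rw [hF, EX_sum _ nW]
    have : ∑ u ∈ Finset.Icc 1 m, (1 - 5 * η) ≤ ∑ u ∈ Finset.Icc 1 m, EX T (fun t => Wb K m σ ε b u T t) :=
      Finset.sum_le_sum fun u hu => g1 u hu
    rwa [Finset.sum_const, Nat.card_Icc, Nat.add_sub_cancel, nsmul_eq_mul] at this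
  have k2 : EX T (fun t => F t * F t) ≤ (m : ℝ) ^ 2 * (1 + 8 * η) := by
    have e1 : (fun t => F t * F t) =
        fun t => ∑ u ∈ Finset.Icc 1 m, ∑ v ∈ Finset.Icc 1 m, Wb K m σ ε b u T t * Wb K m σ ε b v T t := by
      funext t
      rw [hFt, Finset.sum_mul_sum]
    rw [e1, EX_sum _ (fun u hu => Nc.sum _ fun v hv => (nW u hu).mul (nW v hv))]
    have e2 : ∀ u ∈ Finset.Icc 1 m, EX T (fun t => ∑ v ∈ Finset.Icc 1 m, Wb K m σ ε b u T t * Wb K m σ ε b v T t) ≤
        ∑ v ∈ Finset.Icc 1 m, cuv K m η C1 u v := by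
      intro u hu
      rw [EX_sum _ (fun v hv => (nW u hu).mul (nW v hv))]
      exact Finset.sum_le_sum fun v hv => g2 u hu v hv
    refine (Finset.sum_le_sum e2).trans ((cuv_sum h hη hC1).trans ?_)
    apply mul_le_mul_of_nonneg_left _ (by positivity)
    have a1 : Real.exp (40 * C1 * Real.exp (-(Real.log m / K))) ≤ 1 + 2 * η := by
      have b1 : Real.exp (40 * C1 * Real.exp (-(Real.log m / K))) ≤ Real.exp η := Real.exp_le_exp.2 hb3
      have b2 : Real.exp η ≤ 1 + 2 * η := by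
        have c1 := Real.abs_exp_sub_one_le (x := η) (by rw [abs_of_pos hη]; linarith)
        rw [abs_of_pos hη] at c1
        have := (abs_le.1 c1).2
        linarith
      linarith
    have a2 : 3 * K * (1 + 3 * η) * Real.exp (3 + 40 * C1 - 2 * (Real.log m / K)) ≤ η := by
      refine le_trans ?_ hb4
      have : 0 ≤ (K : ℝ) * Real.exp (3 + 40 * C1 - 2 * (Real.log m / K)) := by positivity
      nlinarith
    have a3 : (1 + 3 * η) * Real.exp (40 * C1 * Real.exp (-(Real.log m / K))) ≤ (1 + 3 * η) * (1 + 2 * η) :=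
      mul_le_mul_of_nonneg_left a1 (by linarith)
    nlinarith
  -- Chebyshev
  have nD : Nc T fun t => F t * F t + ((m : ℝ) ^ 2 * 1 + -(2 * m) * F t) :=
    (nF.mul nF).add (((Nc.const T 1).cmul _).add (nF.cmul _))
  have hD : EX T (fun t => F t * F t + ((m : ℝ) ^ 2 * 1 + -(2 * m) * F t)) ≤ 18 * η * (m : ℝ) ^ 2 := by
    rw [EX_add (nF.mul nF) (((Nc.const T 1).cmul _).add (nF.cmul _)),
      EX_add ((Nc.const T 1).cmul _) (nF.cmul _), EX_cmul, EX_cmul]
    have h1 := EX_one_le hT1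
    have h3 : (m : ℝ) ^ 2 * EX T (fun _ => 1) ≤ (m : ℝ) ^ 2 * 1 := mul_le_mul_of_nonneg_left h1 (by positivity)
    have h4 : -(2 * (m : ℝ)) * EX T (fun t => F t) ≤ -(2 * m) * (m * (1 - 5 * η)) := by
      have : (2 * (m : ℝ)) * (m * (1 - 5 * η)) ≤ (2 * m) * EX T (fun t => F t) :=
        mul_le_mul_of_nonneg_left k1 (by positivity)
      linarith
    nlinarith
  have hM := Pb_markov hT nD (fun t _ => by nlinarith [sq_nonneg (F t - m)]) (show 0 < (m : ℝ) ^ 2 / 4 by positivity)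
  refine le_trans (Pb_mono hT (fun t _ ht => ?_)) (hM.trans ?_)
  · -- a small number of high points makes `F` small
    show (m : ℝ) ^ 2 / 4 ≤ F t * F t + ((m : ℝ) ^ 2 * 1 + -(2 * m) * F t)
    have ht' : (cZ K m σ ((1 - ε) * b * V0 K m) T t : ℝ) <
      m / 2 * Real.exp (-(b ^ 2 / 2 * V0 K m + b * sk K m)) := ht
    have hFs : F t ≤ (cZ K m σ ((1 - ε) * b * V0 K m) T t : ℝ) * Real.exp (b ^ 2 / 2 * V0 K m + b * sk K m) := by
      rw [hFt]
      unfold cZ
      rw [← nsmul_eq_mul, ← Finset.sum_const, Finset.sum_filter]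
      apply Finset.sum_le_sum
      intro u _
      by_cases hu : (1 - ε) * b * V0 K m ≤ σ * ZZ K m u 0 T t
      · rw [if_pos hu]
        unfold Wb
        by_cases hg : t ∈ BB K m T ∩ Gb K m σ ε b u T
        · rw [indicator_of_mem hg]
          apply Real.exp_le_exp.2
          have h3 : σ * ZZ K m u 0 T t ≤ b * Vj K m 0 + sk K m := hg.2.2 0 (by rw [Finset.mem_range]; omega)
          rw [Vj_zero] at h3
          have h4 := mul_le_mul_of_nonneg_left h3 hb0.le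
          nlinarith
        · rw [indicator_of_notMem hg]
          exact (Real.exp_pos _).le
      · rw [if_neg hu]
        unfold Wb
        rw [indicator_of_notMem]
        intro hg
        exact hu hg.2.1
    have hF2 : F t < m / 2 := by
      have h1 := mul_lt_mul_of_pos_right ht' (Real.exp_pos (b ^ 2 / 2 * V0 K m + b * sk K m))
      rw [mul_assoc (m / 2 : ℝ), ← Real.exp_add, neg_add_cancel, Real.exp_zero, mul_one] at h1
      linarith
    nlinarith
  · rw [div_le_iff₀ (by positivity)]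
    nlinarith

end

end Pool.Agent.K6.H15.TP
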